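import Pool.Agent.Lib.MP_154526_nt.W2.Spec
import Pool.Agent.Lib.MP_154526_nt.Hof.TT

/-!
# CEX2: the extension to all words kills products (for the hypotheses `KD2`)
-/

set_option autoImplicit false

namespace MP154526.W2.CEX2M

open MP154526.Bound MP154526.Top MP154526.Top.Pass1 MP154526.Hof MP154526.Hof.CEXM MP154526.W2

/-- the extension kills shuffles of words of `ℌ¹` (only `prod` is used) -/
theorem ext_sh (n : ℕ) (φ : List Bool → ℤ) (hK : KD2 n φ) (u v : List Bool) (hu : u ≠ [])
    (hv : v ≠ []) (hEu : EndY u) (hEv : EndY v) (hn : u.length + v.length = n) :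
    shs (ext φ) u v = 0 := by
  refine reduce φ v u.length ?_ u hu rfl hEu
  intro u' hu' hE'
  rw [shs_comm]
  refine reduce φ (false :: u') v.length ?_ v hv rfl hEv
  intro v' hv' hE''
  rw [shs_comm]
  have h1 := hK.prod (u'.length + 1) (v'.length + 1) (by omega) (by omega) (by omega)
    (wd (false :: u')) (wd_mem u' hE') (wd (false :: v')) (wd_mem v' hE'')
  rw [shuffle_wd, lin_sh] at h1
  have h2 : shs φ (false :: u') (false :: v') = 0 := by exact_mod_cast h1
  rw [shs_cons_cons] at h2 ⊢
  have h3 : (fun l => ext φ (false :: l)) = fun l => φ (false :: l) := by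
    funext l
    exact ext_false φ l
  rw [h3]
  exact h2

/-- `Φ` kills the shuffles of words starting with `x` -/
theorem phi_sh (n : ℕ) (φ : List Bool → ℤ) (hK : KD2 n φ) (u v : List Bool)
    (hn : u.length + 1 + (v.length + 1) = n) :
    shs (fun w => ext φ (th w)) (false :: u) (false :: v) = 0 := by
  rw [shs_th]
  refine ext_sh n φ hK _ _ (th_ne (by simp)) (th_ne (by simp)) (endY_th u) (endY_th v) ?_
  rw [th_length, th_length]
  simpa using hn

/-- `ext Φ` kills all shuffles -/
theorem ext_phi_sh (n : ℕ) (φ : List Bool → ℤ) (hK : KD2 n φ) (u v : List Bool) (hu : u ≠ [])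
    (hv : v ≠ []) (hn : u.length + v.length = n) :
    shs (ext (fun w => ext φ (th w))) u v = 0 := by
  refine reduce' _ v u.length ?_ u hu rfl
  intro u' hu'
  rw [shs_comm]
  refine reduce' _ (false :: u') v.length ?_ v hv rfl
  intro v' hv'
  rw [shs_comm]
  have h2 := phi_sh n φ hK u' v' (by omega)
  rw [shs_cons_cons] at h2 ⊢
  have h3 : (fun l => ext (fun w => ext φ (th w)) (false :: l)) =
      fun l => ext φ (th (false :: l)) := by
    funext l
    exact ext_false _ l
  rw [h3]
  exact h2

end MP154526.W2.CEX2M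

namespace MP154526.W2

open MP154526.Bound MP154526.Top MP154526.Hof MP154526.Hof.CEXM

/-- CEX2. -/
theorem specCex2 : SpecCex2 := by
  refine ⟨CEX2M.ext_sh, ?_, ?_⟩
  · intro n φ _ hK u v hu hv hn
    have h1 : shs (cex φ) u v = shs (ext (fun w => ext φ (th w))) (th u) (th v) :=
      shs_th (ext (fun w => ext φ (th w))) u v
    rw [h1]
    refine CEX2M.ext_phi_sh n φ hK _ _ (th_ne hu) (th_ne hv) ?_
    rw [th_length, th_length]
    exact hn
  · intro φ w hw
    rcases hw with rfl | ⟨u, rfl⟩
    · simp [cex, th, ext, extAux]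
    · have h1 : th (u ++ [true]) = false :: th u := by simp [th]
      unfold cex
      rw [h1, Pass1.ext_false, ← h1, th_th]

end MP154526.W2
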