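import Pool.Agent.Lib.MP_154526_nt.W2.Spec
import Pool.Agent.Lib.MP_154526_nt.Top.Fin
import Pool.Agent.Lib.MP_154526_nt.Top.Alg
import Pool.Agent.Lib.MP_154526_nt.Top.Span

/-!
# Module FNI2: the dimension bound for the ideal `I2`
-/

set_option autoImplicit false

namespace MP154526.W2

open MP154526.Bound MP154526.Top

namespace FNI2M

open MP154526.Top.FinN

theorem I_mul {i j : ℕ} {b : H} (hb : b ∈ H0 j) :
    ∀ a ∈ I2 i, shuffle a b ∈ I2 (i + j) := by
  refine span_left specAlg ?_
  rintro a ⟨q, r, h, hq, hr, hh, rfl⟩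
  apply Submodule.subset_span
  refine ⟨q, r, shuffle h b, by omega, hr, ?_, ?_⟩
  · have h1 := specAlg.h0 _ _ _ hh _ hb
    have h2 : i - q + j = i + j - q := by omega
    rwa [h2] at h1
  · rw [specAlg.assoc]

theorem RDS2_le (n : ℕ) : Submodule.span ℚ (RDS2 n) ≤ I2 n := by
  refine Submodule.span_le.mpr ?_
  intro r hr
  apply Submodule.subset_span
  refine ⟨n, r, wd [], le_refl _, hr, ?_, ?_⟩
  · rw [Nat.sub_self]
    exact wd_nil_mem
  · rw [one_right specAlg]

theorem main (hS : SpecSpn2) : ∀ n, H0 n ≤ I2 n ⊔ M n := by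
  intro n
  induction n using Nat.strong_induction_on with
  | _ n ih =>
    rcases Nat.eq_zero_or_pos n with rfl | hn
    · refine (H0_zero.trans ?_).trans le_sup_right
      rw [Submodule.span_le]
      intro z hz
      rw [Set.mem_singleton_iff] at hz
      rw [hz]
      exact mem_M specAlg (L := []) (by simp) rfl
    · refine (hS n hn).trans ?_
      refine sup_le (sup_le ?_ ((RDS2_le n).trans le_sup_left)) ?_
      · rw [Submodule.span_le]
        rintro z ⟨i, j, a, b, hi, hj, hij, ha, hb, rfl⟩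
        obtain ⟨a1, ha1, a2, ha2, haa⟩ := Submodule.mem_sup.mp (ih i (by omega) ha)
        obtain ⟨b1, hb1, b2, hb2, hbb⟩ := Submodule.mem_sup.mp (ih j (by omega) hb)
        have k1 : shuffle a1 b ∈ I2 n := by
          rw [← hij]
          exact I_mul hb a1 ha1
        have k2 : shuffle a2 b1 ∈ I2 n := by
          rw [specAlg.comm, ← hij, Nat.add_comm]
          exact I_mul (M_le specAlg i ha2) b1 hb1
        have k3 : shuffle a2 b2 ∈ M n := by
          rw [← hij]
          exact M_mul specAlg a2 ha2 b2 hb2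
        have k4 : shuffle a b = (shuffle a1 b + shuffle a2 b1) + shuffle a2 b2 := by
          rw [← haa, specAlg.add, ← hbb, add_right specAlg a2, add_assoc]
        rw [SetLike.mem_coe, k4]
        exact Submodule.add_mem_sup (Submodule.add_mem _ k1 k2) k3
      · rw [Submodule.span_le]
        rintro z ⟨w, hw, hn, rfl⟩
        refine Submodule.mem_sup_right ?_
        have h1 := mem_M specAlg (L := [w]) (n := n) (by simpa using hw)
          (by simpa [FinN.wt] using hn)
        rwa [prodL, prodL, one_right specAlg] at h1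

end FNI2M

open FNI2M MP154526.Top.FinN

/-- FNI2 -/
theorem specFni2 (hS : SpecSpn2) : SpecFni2 := by
  intro p
  obtain ⟨W, hW, hWc⟩ := exists_words p
  rw [← hWc]
  let f : W → (H0 p ⧸ (I2 p).comap (H0 p).subtype) :=
    fun w => Submodule.Quotient.mk ⟨gen p w, gen_mem specAlg p w⟩
  have hM : M p ≤ Submodule.span ℚ {z | ∃ w ∈ W, z = gen p w} := by
    rw [M, Submodule.span_le]
    rintro z ⟨L, hL, rfl⟩
    apply Submodule.subset_span
    refine ⟨L.flatten, (hW _).mpr ?_, (gen_flatten specFact hL).symm⟩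
    rw [wt_flatten, hL.2.2]
  have key : ∀ m ∈ Submodule.span ℚ {z | ∃ w ∈ W, z = gen p w}, ∃ hm : m ∈ H0 p,
      (Submodule.Quotient.mk ⟨m, hm⟩ : H0 p ⧸ (I2 p).comap (H0 p).subtype) ∈
        Submodule.span ℚ (Set.range f) := by
    intro m hm
    induction hm using Submodule.span_induction with
    | mem z hz =>
      obtain ⟨w, hw, rfl⟩ := hz
      exact ⟨gen_mem specAlg p w, Submodule.subset_span ⟨⟨w, hw⟩, rfl⟩⟩
    | zero => exact ⟨Submodule.zero_mem _, by
        have : (⟨0, Submodule.zero_mem _⟩ : H0 p) = 0 := rfl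
        rw [this, Submodule.Quotient.mk_zero]
        exact Submodule.zero_mem _⟩
    | add x y _ _ hx hy =>
      obtain ⟨hx1, hx2⟩ := hx
      obtain ⟨hy1, hy2⟩ := hy
      exact ⟨Submodule.add_mem _ hx1 hy1, Submodule.add_mem _ hx2 hy2⟩
    | smul r x _ hx =>
      obtain ⟨hx1, hx2⟩ := hx
      exact ⟨Submodule.smul_mem _ r hx1, Submodule.smul_mem _ r hx2⟩
  have htop : Submodule.span ℚ (Set.range f) = ⊤ := by
    rw [eq_top_iff]
    rintro x -
    obtain ⟨y, rfl⟩ := Submodule.Quotient.mk_surjective _ x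
    obtain ⟨j, hj, m, hm, hjm⟩ := Submodule.mem_sup.mp (main hS p y.2)
    obtain ⟨hm1, hm2⟩ := key m (hM hm)
    have : (Submodule.Quotient.mk y : H0 p ⧸ (I2 p).comap (H0 p).subtype) =
        Submodule.Quotient.mk ⟨m, hm1⟩ := by
      rw [Submodule.Quotient.eq, Submodule.mem_comap]
      have h1 : ((H0 p).subtype (y - ⟨m, hm1⟩) : H) = j := by
        rw [map_sub]
        change (y : H) - m = j
        rw [← hjm]
        abel
      rw [h1]
      exact hj
    rw [this]
    exact hm2
  have h1 := finrank_range_le_card (R := ℚ) f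
  rw [Set.finrank, htop, finrank_top, Fintype.card_coe] at h1
  exact h1

end MP154526.W2
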