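import Pool.Agent.Lib.MP_154526_nt.W2.Spec
import Pool.Agent.Lib.MP_154526_nt.Top.Alg
import Pool.Agent.Lib.MP_154526_nt.Top.Reg

/-!
# FR: the regularised relations with `w₁` of weight at most two, for the extended functional
-/

set_option autoImplicit false

namespace MP154526.W2

open Finset MP154526.Bound MP154526.Top MP154526.Top.Pass2 MP154526.Hof

namespace FRM

theorem fin_rel2 (hA : SpecAlg) (hR : Pass2.SpecReg) (φ : List Bool → ℤ) (n : ℕ) (hK : KD2 n φ)
    (u : List ℕ) (a : ℕ) (b : List ℕ) (hu : wt u ≤ 2) (hn : wt u + wt ((a + 1) :: b) = n) :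
    shs (ext φ) (bw u) (bw ((a + 1) :: b)) = stf (fun l => ext φ (bw l)) u ((a + 1) :: b) := by
  set w₁ : List ℕ := u.map (· + 1) with hw₁
  set w₀ : List ℕ := ((a + 1) :: b).map (· + 1) with hw₀
  have hsum : ∀ l : List ℕ, (l.map (· + 1)).sum = wt l := by
    intro l
    induction l with
    | nil => rfl
    | cons c l ih =>
      rw [List.map_cons, List.sum_cons, ih, wt_cons]
  have hidx : ∀ l : List ℕ, Idx1 (l.map (· + 1)) := by
    intro l k hk
    obtain ⟨c, _, rfl⟩ := List.mem_map.1 hk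
    omega
  set h : H := shuffle (wd (word w₁)) (wd (word w₀)) - stuffle w₁ w₀ with hh
  have e1 : shuffle (wd (word w₁)) (wd (word w₀)) = sh (bw u) (bw ((a + 1) :: b)) := by
    rw [Pass2.shuffle_wd, word_map, word_map]
  have e2 : stuffle w₁ w₀ = stf (fun l => wd (bw l)) u ((a + 1) :: b) := stuffle_eq _ _
  have hmem : h ∈ W1 n := by
    rw [hh, e1, e2]
    refine Submodule.sub_mem _ ?_ ?_
    · refine sh_mem _ _ _ (endY_bw _) (endY_bw _) fun l hl hl' =>
        Submodule.subset_span ⟨l, hl, ?_, rfl⟩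
      rw [hl', bw_length, bw_length, hn]
    · refine stf_mem (W1 n).toAddSubmonoid _ _ _ fun l hl => ?_
      exact Submodule.subset_span ⟨bw l, endY_bw l, by rw [bw_length, hl, hn], rfl⟩
  obtain ⟨r, h0, h1, h2⟩ := ok_of_mem hA hR φ n h hmem
  have hr : r ∈ RDS2 n := by
    refine ⟨h0, w₁, w₀, hidx _, ?_, ⟨hidx _, ?_⟩, ?_, h1⟩
    · rw [hw₁, hsum]
      exact hu
    · intro k hk
      simp only [hw₀, List.map_cons, List.head?_cons, Option.mem_def, Option.some.injEq] at hk
      omega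
    · rw [hw₁, hw₀, hsum, hsum, hn]
  have h3 := hK.rds2 r hr
  rw [Pass2.lin_eq, h2, hh, e1, e2, map_sub] at h3
  have h4 := map_sh (linL (ext φ)).toAddMonoidHom (bw u) (bw ((a + 1) :: b))
  have h5 := stf_map (linL (ext φ)).toAddMonoidHom (fun l => wd (bw l)) u ((a + 1) :: b)
  simp only [LinearMap.toAddMonoidHom_coe, linL_wd] at h4 h5
  rw [h4, h5] at h3
  have h6 := shs_map (Int.castAddHom ℚ) (ext φ) (bw u) (bw ((a + 1) :: b))
  have h7 := stf_map (Int.castAddHom ℚ) (fun l => ext φ (bw l)) u ((a + 1) :: b)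
  simp only [Int.coe_castAddHom] at h6 h7
  rw [← h6, ← h7, sub_eq_zero] at h3
  exact_mod_cast h3

end FRM

theorem specFr : SpecFr := fun n φ hK u a b hu hn =>
  FRM.fin_rel2 Top.specAlg (fun φ w hw => RegN.regOK Top.specAlg φ w hw) φ n hK u a b hu hn

end MP154526.W2
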