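import Pool.Agent.Lib.MP_154526_nt.W2.Spec
import Pool.Agent.Lib.MP_154526_nt.Hof.TT

section
/-!
# JJ2: the extended functional kills `y * b'`, `xy * b'` and `y * (y * b')`
-/
set_option autoImplicit false

namespace MP154526.W2.JJ2M

open Finset MP154526.Bound MP154526.Top MP154526.Top.Pass2 MP154526.Hof MP154526.W2

theorem endY_bw (l : List ℕ) : EndY (bw l) := MP154526.Top.Pass2.endY_bw l

/-- `ext φ (u * b) = 0` for a nonempty word `u` of weight at most two -/
theorem key (hCex : SpecCex2) (hFr : SpecFr) (n : ℕ) (φ : List Bool → ℤ) (hK : KD2 n φ)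
    (u : List ℕ) (hu : u ≠ []) (hu2 : wt u ≤ 2) (a : ℕ) (l : List ℕ)
    (hn : wt u + wt ((a + 1) :: l) = n) :
    stf (fun l => ext φ (bw l)) u ((a + 1) :: l) = 0 := by
  rw [← hFr n φ hK u a l hu2 hn]
  refine hCex.sh1 n φ hK _ _ ?_ ?_ (endY_bw _) (endY_bw _) ?_
  · intro h
    have := congrArg List.length h
    rw [bw_length] at this
    rcases u with _ | ⟨c, u⟩
    · exact hu rfl
    · rw [wt_cons] at this
      simp at this
  · intro h
    have := congrArg List.length h
    rw [bw_length, wt_cons] at this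
    simp at this
  · rw [bw_length, bw_length, hn]

/-- the same for `cn n φ`, in all weights -/
theorem key' (hCex : SpecCex2) (hFr : SpecFr) (n : ℕ) (φ : List Bool → ℤ) (_ : 2 ≤ n)
    (hK : KD2 n φ) (u : List ℕ) (hu : u ≠ []) (hu2 : wt u ≤ 2) (a : ℕ) (l : List ℕ) :
    stf (fun m => cn n φ (bw m)) u ((a + 1) :: l) = 0 := by
  by_cases hw : wt u + wt ((a + 1) :: l) = n
  · have e0 : stf (fun m => cn n φ (bw m)) u ((a + 1) :: l) =
        stf (fun m => ((ext φ (bw m) : ℤ) : ℚ)) u ((a + 1) :: l) := by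
      refine JJM.stf_congr_wt _ _ _ _ fun m hm => ?_
      have hm' : (bw m).length = n := by
        rw [bw_length, hm, ← hw]
      simp only [cn]
      rw [if_pos hm', hCex.ex φ (bw m) (endY_bw m)]
    have e1 := stf_map (Int.castAddHom ℚ) (fun l => ext φ (bw l)) u ((a + 1) :: l)
    simp only [Int.coe_castAddHom] at e1
    rw [e0, ← e1, key hCex hFr n φ hK u hu hu2 a l hw, Int.cast_zero]
  · refine stf_zero _ _ _ fun m hm => ?_
    have hm' : (bw m).length ≠ n := by
      rw [bw_length, hm]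
      exact hw
    simp only [cn]
    rw [if_neg hm']

end MP154526.W2.JJ2M

namespace MP154526.W2

open Finset MP154526.Bound MP154526.Top MP154526.Top.Pass2 MP154526.Hof

theorem specJJ2 (hCex : SpecCex2) (hFr : SpecFr) (hJs : SpecJs) : SpecJJ2 where
  j0 n φ hn hK b := by
    obtain ⟨a, l, hl⟩ := JJM.exists_bw' b
    rw [hl, hJs]
    exact JJ2M.key' hCex hFr n φ hn hK [0] (by simp) (by simp) a l
  j1 n φ hn hK b := by
    obtain ⟨a, l, hl⟩ := JJM.exists_bw' b
    rw [hl, hJs]
    exact JJ2M.key' hCex hFr n φ hn hK [1] (by simp) (by simp) a l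
  j00 n φ hn hK b := by
    obtain ⟨a, l, hl⟩ := JJM.exists_bw' b
    have e1 : (fun l => jj 0 (cn n φ) (bw l)) =
        fun l => stf (fun m => cn n φ (bw m)) [0] l := by
      funext l
      rw [hJs]
    rw [hl, hJs, e1, ← stf_assoc']
    have e2 : stf (fun m => stf (fun m => cn n φ (bw m)) m ((a + 1) :: l)) [0] [0] =
        stf (fun m => cn n φ (bw m)) [0, 0] ((a + 1) :: l) +
        stf (fun m => cn n φ (bw m)) [0, 0] ((a + 1) :: l) +
        stf (fun m => cn n φ (bw m)) [1] ((a + 1) :: l) := by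
      rw [stf_cons_cons, stf_nil_left, stf_nil_left, stf_nil_right]
    rw [e2, JJ2M.key' hCex hFr n φ hn hK [0, 0] (by simp) (by simp) a l,
      JJ2M.key' hCex hFr n φ hn hK [1] (by simp) (by simp) a l]
    simp

end MP154526.W2
end

section
/-!
# KDD: a functional killing products and the relations of `RDS2` kills the relations of depth one
-/
set_option autoImplicit false

namespace MP154526.W2.KDDM

open Finset MP154526.Bound MP154526.Top MP154526.Top.Pass2 MP154526.Hof

/-- `c(J_{i+1} v) = 0` on the words `x w` containing `y` -/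
theorem jj_zero (hOpB : SpecOpB) (n : ℕ) (σ : ℚ) (c : List Bool → ℚ) (h : Hyp n σ c) (i : ℕ) :
    ∀ w, true ∈ w → jj i c (false :: w) = 0 := by
  induction i with
  | zero =>
    intro w hw
    have h1 := hOpB.oy c (false :: w)
    rw [h.hy, h.dx w hw, zero_sub] at h1
    linarith
  | succ i ih =>
    intro w hw
    have h1 := hOpB.ok i c (false :: w)
    have h2 : jj i (ins false c) (false :: w) = 0 := by
      have e : ins false c = fun v => (0 : ℚ) * c v := by
        funext v
        rw [h.hx, zero_mul]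
      rw [e, jj_mul, zero_mul]
    have h3 : ins false (jj i c) (false :: w) = 0 := by
      refine ins_zero_of (P := fun v => ∃ v', true ∈ v' ∧ v = false :: v') _ _ _ ?_ ?_
      · rintro v ⟨v', hv', rfl⟩
        exact ih v' hv'
      · intro u v e
        rcases u with _ | ⟨d, u⟩
        · rw [List.nil_append] at e
          exact ⟨v, by rw [← e]; exact List.mem_cons_of_mem _ hw, rfl⟩
        · rw [List.cons_append, List.cons.injEq] at e
          refine ⟨u ++ false :: v, ?_, by rw [List.cons_append, ← e.1]⟩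
          have := e.2 ▸ hw
          rw [List.mem_append] at this ⊢
          rcases this with h' | h'
          · exact Or.inl h'
          · exact Or.inr (List.mem_cons_of_mem _ h')
    rw [h2, h3, zero_sub, eq_comm, neg_eq_zero, mul_eq_zero] at h1
    rcases h1 with h1 | h1
    · exact absurd h1 (by positivity)
    · exact h1

theorem true_mem_bw (a : ℕ) (l : List ℕ) : true ∈ bw (a :: l) := by
  rw [bw]
  simp

/-- `ext φ` kills `z_{i+1} * b` -/
theorem stf_ext (hHypL : SpecHypL) (hHypOf : SpecHypOf) (hOpB : SpecOpB) (hCex2 : SpecCex2)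
    (hJs : SpecJs) (n : ℕ) (φ : List Bool → ℤ) (hn : 2 ≤ n) (hK : KD2 n φ) (i a : ℕ) (l : List ℕ)
    (hw : i + 1 + wt ((a + 1) :: l) = n) :
    stf (fun m => ext φ (bw m)) [i] ((a + 1) :: l) = 0 := by
  have hH := hHypOf n _ _ (hHypL n φ hn hK)
  have h1 : jj i (cn n φ) (bw ((a + 1) :: l)) = 0 := by
    rw [JJM.bw_succ]
    exact jj_zero hOpB n _ _ hH i _ (true_mem_bw a l)
  rw [hJs] at h1
  have e0 : stf (fun m => cn n φ (bw m)) [i] ((a + 1) :: l) =
      stf (fun m => ((ext φ (bw m) : ℤ) : ℚ)) [i] ((a + 1) :: l) := by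
    refine JJM.stf_congr_wt _ _ _ _ fun m hm => ?_
    have hm' : (bw m).length = n := by
      rw [bw_length, hm, ← hw, wt_cons i, wt_nil]
    simp only [cn]
    rw [if_pos hm', hCex2.ex φ (bw m) (endY_bw m)]
  have e1 := stf_map (Int.castAddHom ℚ) (fun l => ext φ (bw l)) [i] ((a + 1) :: l)
  simp only [Int.coe_castAddHom] at e1
  rw [e0, ← e1] at h1
  exact_mod_cast h1

/-- the relation of depth one -/
theorem rel (n : ℕ) (φ : List Bool → ℤ) (hK : KD2 n φ) (i a : ℕ) (l : List ℕ)
    (hn : i + 1 + wt ((a + 1) :: l) = n)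
    (h : stf (fun m => ext φ (bw m)) [i] ((a + 1) :: l) = 0) :
    shs φ (bw [i]) (bw ((a + 1) :: l)) = stf (fun l => φ (bw l)) [i] ((a + 1) :: l) := by
  rcases i with _ | i
  · have h1 := Pass1.ext_true_sh φ (bw ((a + 1) :: l))
    have e0 : bw [0] = [true] := rfl
    rw [JJM.bw_succ, shs_cons_cons, shs_nil_left] at h1
    rw [stf_cons_cons, stf_nil_left, stf_nil_left] at h
    rw [e0, JJM.bw_succ, shs_cons_cons, shs_nil_left, stf_cons_cons, stf_nil_left, stf_nil_left]
    simp only [Pass1.ext_false] at h1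
    simp only [JJM.ext_bw] at h
    have e1 : bw (0 :: (a + 1) :: l) = true :: false :: bw (a :: l) := by
      rw [← JJM.bw_succ]
      rfl
    rw [e1] at h ⊢
    linarith
  · have hp := hK.prod (i + 1 + 1) (wt ((a + 1) :: l)) (by omega) (by rw [wt_cons]; omega) hn
      (wd (bw [i + 1])) (Submodule.subset_span ⟨_, JJM.adm_bw i [], by
        rw [bw_length, wt_cons, wt_nil], rfl⟩)
      (wd (bw ((a + 1) :: l))) (Submodule.subset_span ⟨_, JJM.adm_bw a l, bw_length _, rfl⟩)
    rw [Pass2.shuffle_wd, Pass1.lin_sh] at hp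
    have hp' : shs φ (bw [i + 1]) (bw ((a + 1) :: l)) = 0 := by exact_mod_cast hp
    rw [hp']
    rw [stf_cons_cons] at h ⊢
    simp only [JJM.ext_bw] at h
    exact h.symm

end MP154526.W2.KDDM

namespace MP154526.W2

open Finset MP154526.Bound MP154526.Top MP154526.Top.Pass2 MP154526.Hof KDDM

theorem specKdd (hHypL : SpecHypL) (hHypOf : SpecHypOf) (hOpB : SpecOpB) (hCex2 : SpecCex2)
    (hJs : SpecJs) : SpecKdd := by
  intro n φ hn hK
  refine ⟨hK.prod, ?_⟩
  rintro r ⟨k, w₀, hk, ⟨hw1, hw0⟩, hs, rfl⟩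
  obtain ⟨i, rfl⟩ : ∃ i, k = i + 1 := ⟨k - 1, by omega⟩
  obtain ⟨l₀, rfl⟩ : ∃ l : List ℕ, w₀ = l.map (· + 1) := by
    refine ⟨w₀.map (· - 1), ?_⟩
    have e : List.map ((fun x => x + 1) ∘ fun x => x - 1) w₀ = List.map id w₀ :=
      List.map_congr_left fun k hk' => by
        have := hw1 k hk'
        simp only [Function.comp_apply, id_eq]
        omega
    rw [List.map_map, e, List.map_id]
  have e0 : word [i + 1] = bw [i] := word_map [i]
  have e2 : stuffle [i + 1] (l₀.map (· + 1)) = stf (fun l => wd (bw l)) [i] l₀ := stuffle_eq [i] _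
  rcases l₀ with _ | ⟨_ | a, l⟩
  · have e3 := map_sh (AddMonoidHom.id H) (bw [i]) []
    rw [shs_nil_right] at e3
    simp only [AddMonoidHom.id_apply] at e3
    rw [e2, e0, Pass2.shuffle_wd, List.map_nil, word, e3, stf_nil_right, sub_self, lin_eq, map_zero]
  · simp at hw0
  · rw [JJM.sum_map] at hs
    have h1 := rel n φ hK i a l hs (stf_ext hHypL hHypOf hOpB hCex2 hJs n φ hn hK i a l hs)
    rw [e2, Pass2.shuffle_wd, word_map, e0, lin_eq, map_sub]
    have h4 := map_sh (linL φ).toAddMonoidHom (bw [i]) (bw ((a + 1) :: l))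
    have h5 := stf_map (linL φ).toAddMonoidHom (fun l => wd (bw l)) [i] ((a + 1) :: l)
    simp only [LinearMap.toAddMonoidHom_coe, linL_wd] at h4 h5
    rw [h4, h5]
    have h6 := shs_map (Int.castAddHom ℚ) φ (bw [i]) (bw ((a + 1) :: l))
    have h7 := stf_map (Int.castAddHom ℚ) (fun l => φ (bw l)) [i] ((a + 1) :: l)
    simp only [Int.coe_castAddHom] at h6 h7
    rw [← h6, ← h7, h1, sub_self]

end MP154526.W2
end
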