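import Pool.Agent.Lib.MP_154526_nt.W2.Spec
import Pool.Agent.Lib.MP_154526_nt.Hof.Asm

section
/-!
# HYPOF: the hypotheses `HypL` imply the hypotheses `Hyp`
-/
set_option autoImplicit false

namespace MP154526.W2

open MP154526.Bound MP154526.Top MP154526.Hof

/-- the word `x w`, `w` containing `y`, is `x b y x^j` -/
theorem specHypOf (hAll : SpecAll) : SpecHypOf := by
  intro n σ c h
  refine ⟨h.sq, h.hom, h.hx, h.hy, h.rev, ?_⟩
  intro w hw
  obtain ⟨b, k, rfl⟩ := Hof.XKaux.decomp w hw
  have h1 := hAll n σ c h 0 k b
  simpa [lw] using h1

end MP154526.W2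
end

section
/-!
# KEY: the two symmetries at the words `y^i b' x^j`, `i, j ≥ 1`
-/
set_option autoImplicit false

namespace MP154526.W2

open MP154526.Hof

namespace KEYM

theorem rev_lw (i j : ℕ) (b : List Bool) :
    (lw (i + 1) (j + 1) b).reverse =
      lw 0 0 (List.replicate j false ++ true :: b.reverse ++ false :: List.replicate i true) := by
  simp only [lw, List.reverse_append, List.reverse_replicate, List.reverse_cons,
    List.replicate_zero, List.nil_append, List.append_nil, List.cons_append,
    List.append_assoc]
  rw [List.replicate_succ, List.replicate_succ' (n := i)]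
  simp

theorem low00 {g : List Bool → ℚ} (h : Z g 0 0) : Low g 0 0 :=
  ⟨fun a h1 h2 => by omega, fun a h1 h2 => by omega, h⟩

end KEYM

open KEYM in
theorem specKEY (hM : SpecLvM) (hQ : SpecLvQ) : SpecKey := by
  intro σ g hσ hr h00 h01 h10 i j hi hj hl b
  obtain ⟨i, rfl⟩ : ∃ k, i = k + 1 := ⟨i - 1, by omega⟩
  obtain ⟨j, rfl⟩ : ∃ k, j = k + 1 := ⟨j - 1, by omega⟩
  have hσ0 : σ ≠ 0 := by
    rintro rfl
    simp at hσ
  have e1 : db g (lw (i + 1) (j + 1) b) = 0 := by
    have h := hr.rm (lw (i + 1) (j + 1) b)
    rw [rev_lw, hM g 0 0 (low00 h00), h10, h01, sub_zero] at h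
    rcases mul_eq_zero.1 h.symm with h | h
    · exact absurd h hσ0
    · exact h
  have e2 : QQ g (lw (i + 1) (j + 1) b) = 0 := by
    have h := hr.rq (lw (i + 1) (j + 1) b)
    rw [rev_lw, hQ g 0 0 (low00 h00), h10, h01, h00, h00] at h
    simp only [mul_zero, add_zero] at h
    rcases mul_eq_zero.1 h.symm with h | h
    · exact absurd h hσ0
    · exact h
  rw [hM g (i + 1) (j + 1) hl b] at e1
  rw [hQ g (i + 1) (j + 1) hl b] at e2
  exact ⟨by linarith, e2⟩

end MP154526.W2
end

section
/-!
# LVM: `g(∂'(y^i b x^j))`
-/
set_option autoImplicit false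

namespace MP154526.W2

open Finset MP154526.Bound MP154526.Top MP154526.Top.Pass2 MP154526.Hof

namespace LVMM

theorem db_append (f : List Bool → ℚ) (u v : List Bool) :
    db f (u ++ v) = db (fun s => f (s ++ v)) u + db (fun s => f (u ++ s)) v := by
  induction u generalizing f with
  | nil => simp [db]
  | cons a u ih =>
    simp only [List.cons_append, db]
    rw [ih]
    ring

theorem split_replicate {a c : Bool} {n : ℕ} {u v : List Bool}
    (h : List.replicate n a = u ++ c :: v) :
    u = List.replicate u.length a ∧ v = List.replicate v.length a ∧ u.length + v.length + 1 = n := by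
  have h1 := List.append_eq_replicate_iff.1 h.symm
  obtain ⟨hl, hu, hcv⟩ := h1
  have h2 : (c :: v) = List.replicate (v.length + 1) a := by simpa using hcv
  rw [List.replicate_succ] at h2
  have h3 := (List.cons.inj h2).2
  refine ⟨hu, h3, ?_⟩
  simp at hl
  omega

/-- the part of `y^i` -/
theorem part1 (g : List Bool → ℚ) (i j : ℕ) (hrow : ∀ a, 1 ≤ a → a ≤ i → Z g a j) (b : List Bool) :
    db (fun s => g ((s ++ (false :: b ++ [true])) ++ List.replicate j false))
      (List.replicate i true) = 0 := by
  refine db_zero_of (P := fun s => g ((s ++ (false :: b ++ [true])) ++ List.replicate j false) = 0)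
    _ _ (fun v hv => hv) ?_
  intro u c v h
  obtain ⟨hu, hv, hl⟩ := split_replicate h
  have h1 := hrow (u.length + 1) (by omega) (by omega) (v ++ false :: b)
  rw [lw, List.replicate_succ', ← hu] at h1
  simpa using h1

/-- the part of `x^j` -/
theorem part3 (g : List Bool → ℚ) (i j : ℕ) (hcol : ∀ r, 1 ≤ r → r ≤ j → Z g i r) (b : List Bool) :
    db (fun s => g ((List.replicate i true ++ (false :: b ++ [true])) ++ s))
      (List.replicate j false) = 0 := by
  refine db_zero_of (P := fun s => g ((List.replicate i true ++ (false :: b ++ [true])) ++ s) = 0)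
    _ _ (fun v hv => hv) ?_
  intro u c v h
  obtain ⟨hu, hv, hl⟩ := split_replicate h
  have h1 := hcol (v.length + 1) (by omega) (by omega) (b ++ true :: u)
  rw [lw, List.replicate_succ, ← hv] at h1
  simpa using h1

end LVMM

open LVMM in
/-- LVM -/
theorem specLvM : SpecLvM := by
  intro g i j hL b
  have e1 : db g (lw i j b) =
      db (fun s => g ((s ++ (false :: b ++ [true])) ++ List.replicate j false))
          (List.replicate i true) +
        db (fun s => g ((List.replicate i true ++ s) ++ List.replicate j false))
          (false :: b ++ [true]) +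
        db (fun s => g ((List.replicate i true ++ (false :: b ++ [true])) ++ s))
          (List.replicate j false) := by
    rw [lw, db_append, db_append]
  rw [e1, part1 g i j hL.row b, part3 g i j hL.col b, zero_add, add_zero]
  have e2 : db (fun s => g ((List.replicate i true ++ s) ++ List.replicate j false))
      (false :: b ++ [true]) =
      g ((List.replicate i true ++ (true :: false :: (b ++ [true]))) ++ List.replicate j false) +
        (db (fun s => g ((List.replicate i true ++ (false :: (s ++ [true]))) ++
          List.replicate j false)) b -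
        g ((List.replicate i true ++ (false :: (b ++ [true, false]))) ++
          List.replicate j false)) := by
    rw [List.cons_append]
    simp only [db]
    rw [db_append]
    simp only [db, sg]
    norm_num
    ring
  have e3 : db (fun s => g ((List.replicate i true ++ (false :: (s ++ [true]))) ++
      List.replicate j false)) b = 0 := by
    refine db_zero_of (P := fun s => g ((List.replicate i true ++ (false :: (s ++ [true]))) ++
      List.replicate j false) = 0) _ _ (fun v hv => hv) ?_
    intro u c v h
    have h1 := hL.mid (u ++ true :: false :: v)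
    rw [lw] at h1
    simpa using h1
  rw [e2, e3, zero_sub, ← sub_eq_add_neg]
  congr 2
  · rw [lw, List.replicate_succ']
    simp
  · rw [lw, List.replicate_succ]
    simp

end MP154526.W2
end

section
/-!
# LVQ: the expansion of `Q` on the words `y^i b' x^j`
-/
set_option autoImplicit false

namespace MP154526.W2

open MP154526.Hof

namespace LVQM

theorem w1 (i j : ℕ) (b : List Bool) :
    false :: lw i j b = lw 0 j (List.replicate i true ++ false :: b) := by
  simp [lw]

theorem w2 (i j : ℕ) (b : List Bool) : true :: lw i j b = lw (i + 1) j b := by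
  simp [lw, List.replicate_succ]

theorem w3 (i j : ℕ) (b : List Bool) : lw i j b ++ [false] = lw i (j + 1) b := by
  simp [lw, List.replicate_succ']

theorem w4 (i j : ℕ) (b : List Bool) :
    lw i j b ++ [true] = lw i 0 (b ++ true :: List.replicate j false) := by
  simp [lw]

end LVQM

open LVQM in
theorem specLVQ (h : SpecLvZ) : SpecLvQ := by
  intro g i j hl b
  obtain ⟨h1, h2⟩ := h g i j hl b
  unfold QQ zin
  rw [h1, h2, w1, w2, w3, w4]
  ring

end MP154526.W2
end

section
/-!
# Module LVZ: the expansion of `g(z ⧢ y^i b x^j)`
-/
set_option autoImplicit false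

namespace MP154526.W2

open Finset MP154526.Bound MP154526.Top MP154526.Top.Pass2 MP154526.Hof

namespace LVZM

/-- insertions of `a` before a letter of the word -/
def pre (a : Bool) : (List Bool → ℚ) → List Bool → ℚ
  | _, [] => 0
  | f, b :: w => f (a :: b :: w) + pre a (fun v => f (b :: v)) w

theorem ins_app (a : Bool) (f : List Bool → ℚ) (u v : List Bool) :
    ins a f (u ++ v) = pre a (fun s => f (s ++ v)) u + ins a (fun s => f (u ++ s)) v := by
  induction u generalizing f with
  | nil => simp [pre]
  | cons b u ih =>
    simp only [List.cons_append, ins, pre]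
    rw [ih]
    ring

theorem pre_zero_of {P : List Bool → Prop} (a : Bool) (f : List Bool → ℚ) (w : List Bool)
    (hf : ∀ v, P v → f v = 0) (hP : ∀ u b v, w = u ++ b :: v → P (u ++ a :: b :: v)) :
    pre a f w = 0 := by
  induction w generalizing f P with
  | nil => rfl
  | cons b w ih =>
    rw [pre, hf (a :: b :: w) (hP [] b w rfl), zero_add]
    refine ih (P := fun v => P (b :: v)) (fun v => f (b :: v)) (fun v hv => hf _ hv) ?_
    intro u c v h
    exact hP (b :: u) c v (by rw [h]; rfl)

theorem ins_same (a : Bool) (f : List Bool → ℚ) (j : ℕ) :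
    ins a f (List.replicate j a) = ((j : ℚ) + 1) * f (List.replicate (j + 1) a) := by
  induction j generalizing f with
  | zero => simp [ins]
  | succ j ih =>
    rw [List.replicate_succ, ins, ih]
    simp only [← List.replicate_succ]
    push_cast
    ring

theorem pre_same (a : Bool) (f : List Bool → ℚ) (j : ℕ) :
    pre a f (List.replicate j a) = (j : ℚ) * f (List.replicate (j + 1) a) := by
  induction j generalizing f with
  | zero => simp [pre]
  | succ j ih =>
    rw [List.replicate_succ, pre, ih]
    simp only [← List.replicate_succ]
    push_cast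
    ring

theorem ins_last (a c : Bool) (f : List Bool → ℚ) (j : ℕ)
    (h : ∀ q, q < j → f (List.replicate q c ++ a :: List.replicate (j - q) c) = 0) :
    ins a f (List.replicate j c) = f (List.replicate j c ++ [a]) := by
  induction j generalizing f with
  | zero => simp [ins]
  | succ j ih =>
    rw [List.replicate_succ, ins]
    have h0 := h 0 (Nat.succ_pos j)
    simp only [List.replicate_zero, List.nil_append, Nat.sub_zero, List.replicate_succ] at h0
    rw [h0, zero_add, ih]
    · rfl
    · intro q hq
      have := h (q + 1) (by omega)
      rw [Nat.add_sub_add_right] at this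
      simpa [List.replicate_succ] using this

theorem pre_zero (a c : Bool) (f : List Bool → ℚ) (j : ℕ)
    (h : ∀ q, q < j → f (List.replicate q c ++ a :: List.replicate (j - q) c) = 0) :
    pre a f (List.replicate j c) = 0 := by
  induction j generalizing f with
  | zero => simp [pre]
  | succ j ih =>
    rw [List.replicate_succ, pre]
    have h0 := h 0 (Nat.succ_pos j)
    simp only [List.replicate_zero, List.nil_append, Nat.sub_zero, List.replicate_succ] at h0
    rw [h0, zero_add, ih]
    intro q hq
    have := h (q + 1) (by omega)
    rw [Nat.add_sub_add_right] at this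
    simpa [List.replicate_succ] using this

theorem pre_first (a c : Bool) (f : List Bool → ℚ) (j : ℕ)
    (h : ∀ q, 1 ≤ q → q < j + 1 →
      f (List.replicate q c ++ a :: List.replicate (j + 1 - q) c) = 0) :
    pre a f (List.replicate (j + 1) c) = f (a :: List.replicate (j + 1) c) := by
  rw [List.replicate_succ, pre, pre_zero, add_zero]
  intro q hq
  have := h (q + 1) (by omega) (by omega)
  rw [Nat.add_sub_add_right] at this
  simpa [List.replicate_succ] using this

/-- the words of `B` with one letter inserted, not at the ends -/
theorem form (a : Bool) (b u v : List Bool) (c : Bool) (h : b ++ [true] = u ++ c :: v) :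
    ∃ s, false :: (u ++ a :: c :: v) = false :: s ++ [true] := by
  rcases List.eq_nil_or_concat (c :: v) with hv | ⟨v', d, hv⟩
  · simp at hv
  · rw [hv] at h ⊢
    have h' : b ++ [true] = (u ++ v') ++ [d] := by simpa using h
    have hd := (List.append_inj' h' rfl).2
    simp only [List.cons.injEq, and_true] at hd
    exact ⟨u ++ a :: v', by simp [hd]⟩

end LVZM

open LVZM in
theorem specLvZ : SpecLvZ := by
  intro g i j hL b
  have hlw : ∀ s : List Bool, List.replicate i true ++
      ((false :: s ++ [true]) ++ List.replicate j false) = lw i j s := fun s => by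
    simp [lw]
  have hw : lw i j b = List.replicate i true ++
      ((false :: b ++ [true]) ++ List.replicate j false) := (hlw b).symm
  have hB : ∀ a : Bool, pre a (fun s => g (List.replicate i true ++
      ((false :: s) ++ List.replicate j false))) (b ++ [true]) = 0 := by
    intro a
    refine pre_zero_of (P := fun s => ∃ t, false :: s = false :: t ++ [true]) a _ _ ?_ ?_
    · rintro v ⟨t, ht⟩
      rw [ht, hlw]
      exact hL.mid t
    · intro u c v h
      exact form a b u v c h
  constructor
  · rw [hw, ins_app, ins_app, ins_same]
    have h2 : pre false (fun s => g (List.replicate i true ++ (s ++ List.replicate j false)))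
        (false :: b ++ [true]) = 0 := by
      rw [List.cons_append, pre]
      rw [show g (List.replicate i true ++ (false :: false :: (b ++ [true]) ++
        List.replicate j false)) = 0 from by
          have := hL.mid (false :: b)
          rw [← hlw] at this
          simpa using this]
      rw [zero_add]
      exact hB false
    rw [h2]
    have h1 : pre false (fun s => g (s ++ ((false :: b ++ [true]) ++ List.replicate j false)))
        (List.replicate i true) = g (lw 0 j (List.replicate i true ++ false :: b)) := by
      cases i with
      | zero =>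
        have := hL.mid (false :: b)
        simp only [List.replicate_zero, pre, List.nil_append]
        exact this.symm
      | succ i =>
        rw [pre_first]
        · congr 1
          simp [lw]
        · intro q hq1 hq2
          have := hL.row q hq1 (by omega) (List.replicate (i + 1 - q) true ++ false :: b)
          rw [← this]
          congr 1
          simp [lw]
    rw [h1]
    have h3 : (List.replicate i true ++ ((false :: b ++ [true]) ++
        List.replicate (j + 1) false)) = lw i (j + 1) b := by simp [lw]
    rw [h3]
    ring
  · rw [hw, ins_app, ins_app, pre_same]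
    have h2 : pre true (fun s => g (List.replicate i true ++ (s ++ List.replicate j false)))
        (false :: b ++ [true]) = g (lw (i + 1) j b) := by
      rw [List.cons_append, pre]
      rw [hB true, add_zero]
      congr 1
      simp [lw, List.replicate_succ']
    rw [h2]
    rw [ins_last]
    · have h1 : List.replicate (i + 1) true ++ ((false :: b ++ [true]) ++
          List.replicate j false) = lw (i + 1) j b := by simp [lw]
      have h3 : List.replicate i true ++ ((false :: b ++ [true]) ++
          (List.replicate j false ++ [true])) =
          lw i 0 (b ++ true :: List.replicate j false) := by simp [lw]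
      rw [h1, h3]
      ring
    · intro q hq
      have hz : Z g i (j - q) := by
        rcases Nat.eq_zero_or_pos q with h0 | h0
        · subst h0
          exact hL.mid
        · exact hL.col _ (by omega) (by omega)
      have := hz (b ++ true :: List.replicate q false)
      rw [← this]
      congr 1
      simp [lw]

end MP154526.W2
end

section
/-!
# Weight two suffices: module `R3K`

The relation (R3) at the words `b' x^j`.
-/
set_option autoImplicit false

namespace MP154526.W2

open Finset MP154526.Bound MP154526.Top MP154526.Top.Pass2 MP154526.Hof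

namespace R3KM

theorem dd_append (f : List Bool → ℚ) (u v : List Bool) :
    dd f (u ++ v) = dd (fun s => f (s ++ v)) u + dd (fun s => f (u ++ s)) v := by
  induction u generalizing f with
  | nil => simp [dd]
  | cons b u ih =>
    simp only [List.cons_append, dd]
    rw [ih]
    ring

theorem d2_append (f : List Bool → ℚ) (u v : List Bool) :
    d2 f (u ++ v) = d2 (fun s => f (s ++ v)) u + d2 (fun s => f (u ++ s)) v := by
  induction u generalizing f with
  | nil => simp [d2]
  | cons b u ih =>
    simp only [List.cons_append, d2]
    rw [ih]
    ring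

/-- words `x .. y` -/
def IsA (s : List Bool) : Prop := ∃ t, s = false :: t ++ [true]

/-- replacing a letter of a word of `A` by a word of `A` -/
theorem isA_repl (u v m : List Bool) (c : Bool) (h : IsA (u ++ c :: v)) :
    IsA (u ++ (false :: m ++ [true]) ++ v) := by
  obtain ⟨t, ht⟩ := h
  have hv : v = [] ∨ ∃ v', v = v' ++ [true] := by
    rcases List.eq_nil_or_concat v with rfl | ⟨v', x, rfl⟩
    · exact Or.inl rfl
    · right
      have h1 : (u ++ c :: v') ++ [x] = (false :: t) ++ [true] := by
        rw [← ht]
        simp
      have h2 := (List.append_inj' h1 rfl).2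
      have h3 : x = true := by simpa using h2
      exact ⟨v', by rw [h3]; simp⟩
  cases u with
  | nil =>
    rcases hv with rfl | ⟨v', rfl⟩
    · exact ⟨m, by simp⟩
    · exact ⟨m ++ [true] ++ v', by simp⟩
  | cons a u' =>
    have ha : a = false := by
      simp only [List.cons_append, List.cons.injEq] at ht
      exact ht.1
    rw [ha]
    rcases hv with rfl | ⟨v', rfl⟩
    · exact ⟨u' ++ (false :: m), by simp⟩
    · exact ⟨u' ++ (false :: m ++ [true]) ++ v', by simp⟩

theorem lw_zero (j : ℕ) (b : List Bool) :
    lw 0 j b = (false :: b ++ [true]) ++ List.replicate j false := by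
  simp [lw]

/-- a suffix of `x^j` is `x^r` -/
theorem suffix_rep (j : ℕ) (u v : List Bool) (c : Bool) (h : List.replicate j false = u ++ c :: v) :
    ∃ r, r < j ∧ v = List.replicate r false := by
  refine ⟨v.length, ?_, ?_⟩
  · have := congrArg List.length h
    simp only [List.length_replicate, List.length_append, List.length_cons] at this
    omega
  · apply List.eq_replicate_of_mem
    intro x hx
    have : x ∈ List.replicate j false := by
      rw [h]
      simp [hx]
    exact List.eq_of_mem_replicate this

end R3KM

open R3KM

theorem specR3K (hLvZ : SpecLvZ) : SpecR3K := by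
  intro g j h0 h1 b
  have hlow : ∀ r, r ≤ j → Low g 0 r := by
    intro r hr
    refine ⟨?_, ?_, h0 r hr⟩
    · intro a ha ha'
      omega
    · intro r' _ hr'
      exact h0 r' (hr'.trans hr)
  -- `zin g` at the words of level `(0, r)`
  have hzin : ∀ r, r ≤ j → ∀ s, zin g (lw 0 r s) = ((r : ℚ) + 1) * g (lw 0 (r + 1) s) := by
    intro r hr s
    obtain ⟨e1, e2⟩ := hLvZ g 0 r (hlow r hr) s
    have a1 : g (lw 0 r (List.replicate 0 true ++ false :: s)) = 0 := h0 r hr _
    have a2 : g (lw (0 + 1) r s) = 0 := h1 r hr s
    have a3 : g (lw 0 0 (s ++ true :: List.replicate r false)) = 0 := h0 0 (Nat.zero_le j) _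
    rw [zin, e1, e2, a1, a2, a3]
    ring
  rw [lw_zero, dd_append]
  -- the part in `x^j`
  have hB : dd (fun s => zin g ((false :: b ++ [true]) ++ s)) (List.replicate j false) = 0 := by
    refine dd_zero_of (P := fun s => ∃ q r, r < j ∧ s = q ++ false :: true :: List.replicate r false)
      _ _ ?_ ?_
    · rintro _ ⟨q, r, hr, rfl⟩
      have e : (false :: b ++ [true]) ++ (q ++ false :: true :: List.replicate r false) =
          lw 0 r (b ++ [true] ++ q ++ [false]) := by
        rw [lw_zero]
        simp
      change zin g ((false :: b ++ [true]) ++ (q ++ false :: true :: List.replicate r false)) = 0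
      rw [e, hzin r hr.le, h0 (r + 1) hr, mul_zero]
    · intro u c v h
      obtain ⟨r, hr, hv⟩ := suffix_rep j u v c h
      exact ⟨u, r, hr, by rw [hv]⟩
  -- the part in `b'`
  have hA : dd (fun s => zin g (s ++ List.replicate j false)) (false :: b ++ [true]) =
      ((j : ℚ) + 1) * dd (fun v => g (v ++ List.replicate (j + 1) false))
        (false :: b ++ [true]) := by
    rw [← dd_mul, ← sub_eq_zero, ← dd_sub]
    refine dd_zero_of (P := IsA) _ _ ?_ ?_
    · rintro _ ⟨t, rfl⟩
      have e1 : (false :: t ++ [true]) ++ List.replicate j false = lw 0 j t := (lw_zero j t).symm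
      have e2 : (false :: t ++ [true]) ++ List.replicate (j + 1) false = lw 0 (j + 1) t :=
        (lw_zero (j + 1) t).symm
      change zin g ((false :: t ++ [true]) ++ List.replicate j false) -
        ((j : ℚ) + 1) * g ((false :: t ++ [true]) ++ List.replicate (j + 1) false) = 0
      rw [e1, e2, hzin j le_rfl, sub_self]
    · intro u c v h
      have h2 := isA_repl u v [] c ⟨b, h.symm⟩
      simpa using h2
  -- `d2`
  have hD : d2 g ((false :: b ++ [true]) ++ List.replicate j false) = 0 := by
    rw [d2_append]
    have hD1 : d2 (fun s => g (s ++ List.replicate j false)) (false :: b ++ [true]) = 0 := by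
      refine d2_zero_of (P := IsA) _ _ ?_ ?_
      · rintro _ ⟨t, rfl⟩
        rw [← lw_zero]
        exact h0 j le_rfl t
      · intro u c c' v h
        have h2 := isA_repl u v [c'] c ⟨b, h.symm⟩
        simpa using h2
    have hD2 : d2 (fun s => g ((false :: b ++ [true]) ++ s)) (List.replicate j false) = 0 := by
      refine d2_zero_of (P := fun s => ∃ q r, r < j ∧
        s = q ++ true :: List.replicate r false) _ _ ?_ ?_
      · rintro _ ⟨q, r, hr, rfl⟩
        have e : (false :: b ++ [true]) ++ (q ++ true :: List.replicate r false) =
            lw 0 r (b ++ [true] ++ q) := by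
          rw [lw_zero]
          simp
        change g ((false :: b ++ [true]) ++ (q ++ true :: List.replicate r false)) = 0
        rw [e]
        exact h0 r hr.le _
      · intro u c c' v h
        obtain ⟨r, hr, hv⟩ := suffix_rep j u v c h
        exact ⟨u ++ [false, c'], r, hr, by rw [hv]; simp⟩
    rw [hD1, hD2, add_zero]
  rw [hA, hB, hD, add_zero, add_zero]

end MP154526.W2
end

section
/-!
# R4B: the relation (R4) at the words `b' x`
-/
set_option autoImplicit false

namespace MP154526.W2

open MP154526.Hof

namespace R4BM

/-- `ζ_i` on a product of words -/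
theorem ze_append (i : ℕ) (f : List Bool → ℚ) (u v : List Bool) :
    ze i f (u ++ v) = ze i (fun s => f (s ++ v)) u + ze i (fun s => f (u ++ s)) v := by
  induction u generalizing f with
  | nil => simp [ze]
  | cons a u ih =>
    cases a
    · simp only [List.cons_append, ze]
      rw [ih]
    · simp only [List.cons_append, ze]
      rw [ih]
      simp only [xy, List.append_assoc, List.cons_append]
      ring

/-- the words of `ζ_i b'`, `b'` in `A`, lie in `A` -/
theorem ze_zero_A (i : ℕ) (f : List Bool → ℚ) (hf : ∀ c, f (false :: c ++ [true]) = 0)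
    (b : List Bool) : ze i f (false :: b ++ [true]) = 0 := by
  refine ze_zero_of (P := fun v => ∃ c, v = false :: c ++ [true]) i f _ ?_ ?_
  · rintro v ⟨c, rfl⟩
    exact hf c
  · intro u c v h
    rcases u with _ | ⟨a, u⟩
    · simp at h
    · simp only [List.cons_append, List.cons.injEq] at h
      obtain ⟨rfl, h⟩ := h
      rcases List.eq_nil_or_concat v with rfl | ⟨v', d, rfl⟩
      · refine ⟨u ++ c :: List.replicate i false, ?_⟩
        simp [xy]
      · rw [List.concat_eq_append] at h ⊢
        have h2 : b ++ [true] = (u ++ true :: v') ++ [d] := by simpa using h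
        obtain ⟨-, h3⟩ := List.append_inj' h2 rfl
        simp only [List.cons.injEq, and_true] at h3
        subst h3
        refine ⟨u ++ c :: (List.replicate i false ++ true :: v'), ?_⟩
        simp [xy]

theorem ze_sub (i : ℕ) (f g : List Bool → ℚ) (w : List Bool) :
    ze i (fun v => f v - g v) w = ze i f w - ze i g w := by
  have h := ze_add i f (fun v => (-1) * g v) w
  rw [ze_mul] at h
  have e : (fun v => f v - g v) = fun v => f v + (-1) * g v := by
    funext v
    ring
  rw [e, h]
  ring

theorem ze_congr_A (i : ℕ) (f g : List Bool → ℚ)
    (hf : ∀ c, f (false :: c ++ [true]) = g (false :: c ++ [true])) (b : List Bool) :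
    ze i f (false :: b ++ [true]) = ze i g (false :: b ++ [true]) := by
  have h := ze_zero_A i (fun v => f v - g v) (fun c => sub_eq_zero.2 (hf c)) b
  rw [ze_sub] at h
  exact sub_eq_zero.1 h

theorem low01 {g : List Bool → ℚ} (h : Z g 0 1) : Low g 0 1 :=
  ⟨fun a h1 h2 => by omega, fun a h1 h2 => by
    obtain rfl : a = 1 := by omega
    exact h, h⟩

theorem low11 {g : List Bool → ℚ} (h : Z g 1 1) : Low g 1 1 :=
  ⟨fun a h1 h2 => by
    obtain rfl : a = 1 := by omega
    exact h, fun a h1 h2 => by
    obtain rfl : a = 1 := by omega
    exact h, h⟩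

end R4BM

open R4BM in
theorem specR4B (hZ : SpecLvZ) : SpecR4B := by
  intro g h00 h01 h10 h11 b
  have ew : lw 0 1 b = (false :: b ++ [true]) ++ [false] := by simp [lw]
  have ew1 : true :: lw 0 1 b = lw 1 1 b := by simp [lw]
  -- the term `x ⧢ y b' x`
  have t1 : ins false g (lw 1 1 b) = 2 * g (lw 1 2 b) := by
    rw [(hZ g 1 1 (low11 h11) b).1, h01]
    norm_num
  -- the term `x ⧢ (ζ_1 b') x`
  have t2 : ze 0 (ins false g) (lw 0 1 b) =
      2 * ze 0 (fun v => g (v ++ [false, false])) (false :: b ++ [true]) := by
    rw [ew, ze_append]
    have e0 : ze 0 (fun s => ins false g (false :: b ++ [true] ++ s)) [false] = 0 := by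
      simp [ze]
    rw [e0, add_zero, ← ze_mul]
    refine ze_congr_A 0 _ _ (fun c => ?_) b
    have e1 : false :: c ++ [true] ++ [false] = lw 0 1 c := by simp [lw]
    have e2 : false :: c ++ [true] ++ [false, false] = lw 0 2 c := by simp [lw]
    rw [e1, e2, (hZ g 0 1 (low01 h01) c).1, h01]
    norm_num
  -- `J_2 (b' x)`
  have t3 : g (xy 1 (lw 0 1 b)) = 0 := by
    have e : xy 1 (lw 0 1 b) = lw 0 1 (true :: false :: b) := by simp [lw, xy]
    rw [e, h01]
  have t4 : ze 1 g (lw 0 1 b) = 0 := by
    rw [ew, ze_append]
    have e0 : ze 1 (fun s => g (false :: b ++ [true] ++ s)) [false] = 0 := by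
      simp [ze]
    rw [e0, add_zero]
    refine ze_zero_A 1 _ (fun c => ?_) b
    have e1 : false :: c ++ [true] ++ [false] = lw 0 1 c := by simp [lw]
    rw [e1, h01]
  have e3 : xy 0 (lw 0 1 b) = lw 1 1 b := by simp [lw, xy]
  unfold jj
  rw [e3, t1, t2, t3, t4]
  ring

end MP154526.W2
end
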