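import Pool.Agent.Lib.MP_154526_nt.W2.Spec
import Pool.Agent.Lib.MP_154526_nt.Hof.TT

section
/-!
# ALL: Theorem L, the induction on the level
-/
set_option autoImplicit false

namespace MP154526.W2

open MP154526.Bound MP154526.Top MP154526.Hof

namespace ALLM

theorem zth (hS : SpecSym) (c : List Bool → ℚ) (i j : ℕ) (h : Z (dd fun w => c (th w)) i j) :
    Z (dd c) j i := by
  intro b
  have h1 := h (th b)
  rw [hS.dth, hS.lth, hS.tth, neg_eq_zero] at h1
  exact h1

theorem zth' (hS : SpecSym) (c : List Bool → ℚ) (i j : ℕ) (h : Z (dd c) j i) :
    Z (dd fun w => c (th w)) i j := by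
  intro b
  rw [hS.dth, hS.lth, h (th b), neg_zero]

theorem main (hRel : SpecRel) (hS : SpecSym) (h1 : SpecSt1) (hN : SpecStN) (n : ℕ) (σ : ℚ)
    (c : List Bool → ℚ) (hc : HypL n σ c) (N : ℕ) : ∀ i j, i + j ≤ N → Z (dd c) i j := by
  have hc' := hS.hyp n σ c hc
  have hr := hRel n σ c hc
  have hr' := hRel n σ _ hc'
  induction N with
  | zero =>
    intro i j hij
    obtain rfl : i = 0 := by omega
    obtain rfl : j = 0 := by omega
    exact hc.l00
  | succ N ih =>
    intro i j hij
    rcases Nat.lt_or_ge (i + j) (N + 1) with h | h
    · exact ih i j (by omega)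
    have hij' : i + j = N + 1 := by omega
    rcases Nat.lt_or_ge N 2 with hN2 | hN2
    · rcases Nat.lt_or_ge N 1 with hN1 | hN1
      · -- level one
        rcases Nat.eq_zero_or_pos i with rfl | hi
        · obtain rfl : j = 1 := by omega
          exact hc.l01
        · obtain rfl : i = 1 := by omega
          obtain rfl : j = 0 := by omega
          exact hc.l10
      · -- level two
        obtain rfl : N = 1 := by omega
        have h2 := h1 σ _ hc.sq hr hc.l00 hc.l01 hc.l10
        have h3 := h1 σ _ hc'.sq hr' hc'.l00 hc'.l01 hc'.l10
        rcases Nat.eq_zero_or_pos i with rfl | hi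
        · obtain rfl : j = 2 := by omega
          exact h2.2
        · rcases Nat.eq_zero_or_pos j with rfl | hj
          · obtain rfl : i = 2 := by omega
            exact zth hS c 0 2 h3.2
          · obtain rfl : i = 1 := by omega
            obtain rfl : j = 1 := by omega
            exact h2.1
    · rcases Nat.eq_zero_or_pos j with rfl | hj
      · have h2 := hN σ _ N hc'.sq hr' hN2
          (fun a b hab => zth' hS c a b (ih b a (by omega))) 0 (N + 1) (by omega) (by omega)
        have h3 := zth hS c 0 (N + 1) h2
        obtain rfl : i = N + 1 := by omega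
        exact h3
      · exact hN σ _ N hc.sq hr hN2 ih i j hij' hj

end ALLM

/-- ALL. -/
theorem specAll (hRel : SpecRel) (hS : SpecSym) (h1 : SpecSt1) (hN : SpecStN) : SpecAll :=
  fun n σ c hc i j => ALLM.main hRel hS h1 hN n σ c hc (i + j) i j le_rfl

end MP154526.W2
end

section
/-!
# W2, module DX
-/
set_option autoImplicit false

namespace MP154526.W2

open Finset MP154526.Bound MP154526.Top MP154526.Top.Pass2 MP154526.Hof

namespace DXM

/-- the last letter is `y` -/
def ET (w : List Bool) : Prop := w.getLast? = some true

theorem dd_rep (p : ℕ) (s : List Bool) (f : List Bool → ℚ)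
    (h : ∀ q, q < p →
      f (List.replicate (q + 1) false ++ true :: (List.replicate (p - 1 - q) false ++ s)) = 0) :
    dd f (List.replicate p false ++ s) = dd (fun v => f (List.replicate p false ++ v)) s := by
  induction p generalizing f with
  | zero => rfl
  | succ p ih =>
    have h0 : f (false :: true :: (List.replicate p false ++ s)) = 0 := by
      have := h 0 (by omega)
      simpa using this
    rw [List.replicate_succ, List.cons_append, dd, h0, mul_zero, zero_add, ih]
    · rfl
    · intro q hq
      have := h (q + 1) (by omega)
      have e : p + 1 - 1 - (q + 1) = p - 1 - q := by omega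
      rw [e, List.replicate_succ, List.cons_append] at this
      exact this

theorem et_dd (u u1 v : List Bool) (b : Bool) (hu : ET (true :: u)) (h : u = u1 ++ b :: v) :
    ET (true :: (u1 ++ false :: true :: v)) := by
  subst h
  unfold ET at *
  rw [← List.cons_append, List.getLast?_append] at *
  simp only [List.getLast?_cons, Option.some_or] at *
  simp only [Option.getD_some, Option.some.injEq] at *
  cases hv : v.getLast? with
  | none => simp
  | some c => rw [hv] at hu; simpa using hu

theorem step (κ : List Bool → ℚ) (p : ℕ) (hp : 1 ≤ p)
    (H : ∀ p', 1 ≤ p' → p' ≤ p → ∀ u, ET (true :: u) →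
      κ (List.replicate p' false ++ true :: u) = 0)
    (u : List Bool) (hu : ET (true :: u))
    (hd : dd κ (List.replicate p false ++ true :: u) = 0) :
    κ (List.replicate (p + 1) false ++ true :: u) = 0 := by
  rw [dd_rep] at hd
  · rw [dd] at hd
    have hz : dd (fun v => κ (List.replicate p false ++ true :: v)) u = 0 := by
      refine dd_zero_of (P := fun v => ET (true :: v)) _ u (fun v hv => H p hp le_rfl v hv) ?_
      intro u1 b v h
      exact et_dd u u1 v b hu h
    rw [hz, add_zero] at hd
    have e : List.replicate (p + 1) false ++ true :: u =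
        List.replicate p false ++ false :: true :: u := by
      rw [List.replicate_succ']
      simp
    rw [e]
    simpa [sg] using hd
  · intro q hq
    refine H (q + 1) (by omega) (by omega) _ ?_
    unfold ET at *
    rw [← List.cons_append, List.getLast?_append, hu]
    rfl

theorem form (p : ℕ) (u : List Bool) (hu : ET (true :: u)) :
    ∃ b, List.replicate (p + 1) false ++ true :: u = false :: b ++ [true] := by
  refine ⟨List.replicate p false ++ (true :: u).dropLast, ?_⟩
  have : (true :: u).dropLast ++ [true] = true :: u :=
    List.dropLast_append_getLast? true hu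
  rw [List.replicate_succ, List.cons_append, List.cons_append, List.append_assoc, this]

theorem decomp (b : List Bool) :
    ∃ p u, b ++ [true] = List.replicate p false ++ true :: u ∧ ET (true :: u) := by
  induction b with
  | nil => exact ⟨0, [], rfl, rfl⟩
  | cons a b ih =>
    cases a
    · obtain ⟨p, u, h, hu⟩ := ih
      refine ⟨p + 1, u, ?_, hu⟩
      rw [List.replicate_succ, List.cons_append, List.cons_append, h]
    · refine ⟨0, b ++ [true], by simp, ?_⟩
      unfold ET
      rw [← List.cons_append, List.getLast?_append]
      rfl

end DXM

open DXM in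
/-- DX -/
theorem specDx : SpecDx := by
  intro κ hd h1 b
  have key : ∀ p, 1 ≤ p → ∀ u, ET (true :: u) →
      κ (List.replicate p false ++ true :: u) = 0 := by
    intro p
    induction p using Nat.strong_induction_on with
    | _ p ih =>
      intro hp u hu
      rcases Nat.lt_or_ge p 2 with h2 | h2
      · have e : p = 1 := by omega
        subst e
        cases u with
        | nil => exact h1 [] (by simp)
        | cons a u =>
          have hu' : (a :: u).getLast? = some true := by
            unfold ET at hu
            simpa [List.getLast?_cons] using hu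
          have e2 : (a :: u).dropLast ++ [true] = a :: u :=
            List.dropLast_append_getLast? true hu'
          have := h1 (true :: (a :: u).dropLast) (by simp)
          rw [List.cons_append, List.cons_append, e2] at this
          exact this
      · obtain ⟨r, rfl⟩ : ∃ r, p = r + 1 := ⟨p - 1, by omega⟩
        refine step κ r (by omega) (fun p' hp' hle u' hu' => ih p' (by omega) hp' u' hu') u hu ?_
        obtain ⟨s, rfl⟩ : ∃ s, r = s + 1 := ⟨r - 1, by omega⟩
        obtain ⟨b', hb'⟩ := form s u hu
        rw [hb']
        exact hd b'
  obtain ⟨p, u, h, hu⟩ := decomp b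
  have e : false :: b ++ [true] = List.replicate (p + 1) false ++ true :: u := by
    rw [List.cons_append, h, List.replicate_succ, List.cons_append]
  rw [e]
  exact key (p + 1) (by omega) u hu

end MP154526.W2
end

section
/-!
# HYPL: the extended functional satisfies the hypotheses of Theorem L
-/
set_option autoImplicit false

namespace MP154526.W2.HYPLM

open Finset MP154526.Bound MP154526.Top MP154526.Top.Pass2 MP154526.Hof

/-- insertion in a word with a last letter -/
theorem ins_snoc (a b : Bool) (u : List Bool) : ∀ f : List Bool → ℚ,
    ins a f (u ++ [b]) = ins a (fun v => f (v ++ [b])) u + f (u ++ [b, a]) := by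
  induction u with
  | nil => intro f; simp [ins]
  | cons c u ih =>
    intro f
    rw [List.cons_append, ins, ins, ih (fun v => f (c :: v))]
    simp only [List.cons_append]
    ring

end MP154526.W2.HYPLM

namespace MP154526.W2

open Finset MP154526.Bound MP154526.Top MP154526.Top.Pass2 MP154526.Hof

theorem specHypL (hCex2 : SpecCex2) (hAnt : SpecAnt) (hJJ2 : SpecJJ2) (hOpB : SpecOpB) :
    SpecHypL := by
  intro n φ hn hK
  have hc := hCex2.sh n φ hn hK
  have hx : ∀ w, ins false (cn n φ) w = 0 := fun w => HYPM.ins_cn n φ hn hc false w
  have hy : ∀ w, ins true (cn n φ) w = 0 := fun w => HYPM.ins_cn n φ hn hc true w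
  have hdj : ∀ w, dd (cn n φ) w = -jj 0 (cn n φ) w := fun w => by
    rw [hOpB.oy, hy, zero_sub]
  have h00 : ∀ b, dd (cn n φ) (false :: b ++ [true]) = 0 := fun b => by
    rw [hdj, hJJ2.j0 n φ hn hK b, neg_zero]
  refine ⟨?_, ?_, hx, hy, ?_, ?_, ?_, ?_⟩
  · rw [← pow_add, ← two_mul]
    exact Even.neg_one_pow ⟨n + 1, by ring⟩
  · intro w hw
    rw [cn, if_neg hw]
  · intro w
    by_cases hw : w.length = n
    · rw [cn, cn, if_pos (by simpa using hw), if_pos hw, hAnt n (cex φ) (by omega) hc w hw]
      push_cast
      rfl
    · rw [cn, cn, if_neg (by simpa using hw), if_neg hw, mul_zero]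
  · intro b
    have := h00 b
    simpa [lw] using this
  · intro b
    have h1 := hOpB.ox (cn n φ) (false :: b ++ [true])
    have h2 : dd (ins false (cn n φ)) (false :: b ++ [true]) = 0 :=
      dd_zero_of (P := fun _ => True) _ _ (fun v _ => hx v) (fun _ _ _ _ => trivial)
    rw [h2, hJJ2.j1 n φ hn hK b, zero_add, HYPLM.ins_snoc false true (false :: b)] at h1
    have h3 : ins false (fun v => dd (cn n φ) (v ++ [true])) (false :: b) = 0 := by
      refine ins_zero_of (P := fun v => ∃ b', v = false :: b') _ _ _ ?_ ?_
      · rintro v ⟨b', rfl⟩
        exact h00 b'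
      · intro u v h
        rcases u with _ | ⟨e, u⟩
        · exact ⟨v, rfl⟩
        · rw [List.cons_append, List.cons.injEq] at h
          exact ⟨u ++ false :: v, by rw [List.cons_append, ← h.1]⟩
    rw [h3, zero_add] at h1
    simpa [lw] using h1
  · intro b
    have h1 := hJJ2.j00 n φ hn hK b
    have h2 : jj 0 (cn n φ) = fun w => (-1 : ℚ) * dd (cn n φ) w := by
      funext w
      rw [hdj]
      ring
    rw [h2, jj_mul] at h1
    have h3 : jj 0 (dd (cn n φ)) (false :: b ++ [true]) = 0 := by linarith
    have h4 : ze 0 (dd (cn n φ)) (false :: b ++ [true]) = 0 := by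
      refine ze_zero_of (P := fun v => ∃ b', v = false :: b' ++ [true]) _ _ _ ?_ ?_
      · rintro v ⟨b', rfl⟩
        exact h00 b'
      · intro u e v h
        rcases u with _ | ⟨e', u⟩
        · simp at h
        · rw [List.cons_append, List.cons_append, List.cons.injEq] at h
          obtain ⟨h5, h6⟩ := h
          rcases List.eq_nil_or_concat v with hv | ⟨v', a, hv⟩
          · exact ⟨u ++ [e], by rw [hv, ← h5]; simp [xy]⟩
          · rw [List.concat_eq_append] at hv
            have h7 : true = a := by
              have h8 : b ++ [true] = (u ++ true :: v') ++ [a] := by rw [h6, hv]; simp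
              have := congrArg List.getLast? h8
              rw [List.getLast?_concat, List.getLast?_concat] at this
              simpa using this
            exact ⟨u ++ e :: true :: v', by rw [hv, ← h5, ← h7]; simp [xy]⟩
    rw [jj, h4, add_zero] at h3
    simpa [lw, xy] using h3

end MP154526.W2
end

section
/-!
# W2, module MREV
-/
set_option autoImplicit false

namespace MP154526.W2

open Finset MP154526.Bound MP154526.Top MP154526.Top.Pass2 MP154526.Hof

namespace MREVM

theorem low (g : List Bool → ℚ) (N j : ℕ) (hZ : ∀ i j, i + j ≤ N → Z g i j) (hj : j ≤ N) :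
    Low g 0 j :=
  ⟨fun a h1 h2 => by omega, fun r _ h2 => hZ 0 r (by omega), hZ 0 j (by omega)⟩

theorem rep_cons (M : ℕ) (s : List Bool) :
    List.replicate M false ++ false :: s = false :: (List.replicate M false ++ s) := by
  induction M with
  | zero => rfl
  | succ M ih => rw [List.replicate_succ, List.cons_append, ih, List.cons_append]

theorem rev_form (N : ℕ) (hN : 1 ≤ N) (b : List Bool) (hb : ∀ u, b ≠ false :: u) :
    ∃ b', (lw 0 N b).reverse = lw 0 1 b' := by
  obtain ⟨M, rfl⟩ : ∃ M, N = M + 1 := ⟨N - 1, by omega⟩
  cases b with
  | nil =>
    refine ⟨List.replicate M false, ?_⟩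
    simp [lw, List.replicate_succ, rep_cons]
  | cons a u =>
    cases a
    · exact absurd rfl (hb u)
    · refine ⟨List.replicate M false ++ true :: u.reverse, ?_⟩
      simp [lw, List.replicate_succ, rep_cons]

end MREVM

open MREVM in
/-- MREV -/
theorem specMrev (hLvM : SpecLvM) : SpecMrev := by
  intro σ g N hσ hR hN hZ h1N b hb
  have e1 := hLvM g 0 N (low g N N hZ le_rfl) b
  rw [show (0 : ℕ) + 1 = 1 from rfl, h1N b, zero_sub] at e1
  obtain ⟨b', hb'⟩ := rev_form N (by omega) b hb
  have e2 := hLvM g 0 1 (low g N 1 hZ (by omega)) b'
  rw [show (0 : ℕ) + 1 = 1 from rfl, show (1 : ℕ) + 1 = 2 from rfl,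
    hZ 1 1 (by omega) b', hZ 0 2 (by omega) b', sub_zero] at e2
  have e3 := hR.rm (lw 0 N b)
  rw [hb', e2, e1] at e3
  have hσ0 : σ ≠ 0 := by
    rintro rfl
    norm_num at hσ
  have e4 : σ * g (lw 0 (N + 1) b) = 0 := by linarith
  exact (mul_eq_zero.1 e4).resolve_left hσ0

end MP154526.W2
end

section
/-!
# Module PHI: functions on `A` which vanish on `∂ A`, `ζ_1 A` and `x y x ..`
-/
set_option autoImplicit false

namespace MP154526.W2

open Finset MP154526.Bound MP154526.Top MP154526.Top.Pass2 MP154526.Hof

namespace PHIM

theorem step (F : List Bool → ℚ) (k : ℕ) (v : List Bool) :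
    dd F (List.replicate k true ++ v) + ze 0 F (List.replicate k true ++ v) =
      (k : ℚ) * F (List.replicate (k + 1) true ++ v) +
        (dd (fun s => F (List.replicate k true ++ s)) v +
          ze 0 (fun s => F (List.replicate k true ++ s)) v) := by
  induction k generalizing F with
  | zero => simp
  | succ k ih =>
    have := ih (fun s => F (true :: s))
    simp only [List.replicate_succ, List.cons_append, dd, ze, sg, xy, List.replicate_zero,
      List.nil_append] at this ⊢
    simp only [if_true] at this ⊢
    push_cast
    linarith

theorem total (κ : List Bool → ℚ) (k : ℕ) (v : List Bool) :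
    dd κ (false :: (List.replicate k true ++ v)) + ze 0 κ (false :: (List.replicate k true ++ v)) =
      ((k : ℚ) + 1) * κ (false :: (List.replicate (k + 1) true ++ v)) +
        (dd (fun s => κ (false :: (List.replicate k true ++ s))) v +
          ze 0 (fun s => κ (false :: (List.replicate k true ++ s))) v) := by
  have := step (fun s => κ (false :: s)) k v
  rw [dd, ze]
  simp only [sg, List.replicate_succ, List.cons_append] at this ⊢
  simp only [Bool.false_eq_true, if_false] at this ⊢
  linarith

/-- the shape of words -/
theorem form (a c d : Bool) (b u v : List Bool) (h : b ++ [true] = u ++ c :: v)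
    (hd : d = true) : ∃ t, false :: (u ++ a :: d :: v) = false :: t ++ [true] := by
  subst hd
  rcases List.eq_nil_or_concat v with hv | ⟨v', e, hv⟩
  · subst hv
    exact ⟨u ++ [a], by simp⟩
  · subst hv
    have h' : b ++ [true] = (u ++ c :: v') ++ [e] := by simpa using h
    have he := (List.append_inj' h' rfl).2
    simp only [List.cons.injEq, and_true] at he
    exact ⟨u ++ a :: true :: v', by simp [he]⟩

theorem part1 (κ : List Bool → ℚ) (h1 : ∀ b, dd κ (false :: b ++ [true]) = 0)
    (h2 : ∀ b, ze 0 κ (false :: b ++ [true]) = 0)
    (h3 : ∀ b, κ (false :: (true :: false :: b) ++ [true]) = 0) (k : ℕ) : ∀ u : List Bool,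
    κ (false :: (List.replicate (k + 1) true ++ (false :: u ++ [true]))) = 0 := by
  induction k with
  | zero =>
    intro u
    simpa using h3 u
  | succ k ih =>
    intro u
    have ht := total κ (k + 1) (false :: u ++ [true])
    have e : false :: (List.replicate (k + 1) true ++ (false :: u ++ [true])) =
        false :: (List.replicate (k + 1) true ++ false :: u) ++ [true] := by simp
    have a1 := h1 (List.replicate (k + 1) true ++ false :: u)
    have a2 := h2 (List.replicate (k + 1) true ++ false :: u)
    rw [← e] at a1 a2
    have z1 : dd (fun s => κ (false :: (List.replicate (k + 1) true ++ s)))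
        (false :: u ++ [true]) = 0 := by
      refine dd_zero_of (P := fun s => ∃ t, s = false :: t ++ [true]) _ _ ?_ ?_
      · rintro v ⟨t, rfl⟩
        exact ih t
      · intro p c v h
        cases p with
        | nil =>
          have hv : u ++ [true] = v := by
            have := congrArg List.tail h
            simpa using this
          exact ⟨true :: u, by simp [← hv]⟩
        | cons p0 p =>
          have h0 : p0 = false := by
            have := congrArg List.head? h
            simpa using this.symm
          have hv : u ++ [true] = p ++ c :: v := by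
            have := congrArg List.tail h
            simpa using this
          subst h0
          exact form false c true u p v hv rfl
    have z2 : ze 0 (fun s => κ (false :: (List.replicate (k + 1) true ++ s)))
        (false :: u ++ [true]) = 0 := by
      refine ze_zero_of (P := fun s => ∃ t, s = false :: t ++ [true]) 0 _ _ ?_ ?_
      · rintro v ⟨t, rfl⟩
        exact ih t
      · intro p c v h
        cases p with
        | nil =>
          have := congrArg List.head? h
          simp at this
        | cons p0 p =>
          have h0 : p0 = false := by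
            have := congrArg List.head? h
            simpa using this.symm
          have hv : u ++ [true] = p ++ true :: v := by
            have := congrArg List.tail h
            simpa using this
          subst h0
          simp only [xy, List.replicate_zero, List.nil_append, List.cons_append]
          exact form c true true u p v hv rfl
    rw [a1, a2, z1, z2] at ht
    have hk : ((k + 1 : ℕ) : ℚ) + 1 ≠ 0 := by positivity
    have : (((k + 1 : ℕ) : ℚ) + 1) *
        κ (false :: (List.replicate (k + 1 + 1) true ++ (false :: u ++ [true]))) = 0 := by
      linarith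
    exact (mul_eq_zero.mp this).resolve_left hk

theorem decomp (b : List Bool) : (∃ k, b = List.replicate k true) ∨
    ∃ k u, b = List.replicate k true ++ false :: u := by
  induction b with
  | nil => exact Or.inl ⟨0, rfl⟩
  | cons c b ih =>
    cases c with
    | false => exact Or.inr ⟨0, b, rfl⟩
    | true =>
      rcases ih with ⟨k, rfl⟩ | ⟨k, u, rfl⟩
      · exact Or.inl ⟨k + 1, by simp [List.replicate_succ]⟩
      · exact Or.inr ⟨k + 1, u, by simp [List.replicate_succ]⟩

end PHIM

open PHIM in
theorem specPhi : SpecPhi := by
  intro κ h1 h2 h3 h4 b hb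
  rcases decomp b with ⟨k, rfl⟩ | ⟨k, u, rfl⟩
  · cases k with
    | zero => simpa using h4
    | succ k =>
      have ht := total κ (k + 1) []
      have e : false :: (List.replicate (k + 1) true ++ []) =
          false :: List.replicate k true ++ [true] := by
        simp [List.replicate_succ']
      have a1 := h1 (List.replicate k true)
      have a2 := h2 (List.replicate k true)
      rw [← e] at a1 a2
      rw [a1, a2] at ht
      simp only [dd, ze, add_zero] at ht
      have hk : ((k + 1 : ℕ) : ℚ) + 1 ≠ 0 := by positivity
      have h5 := (mul_eq_zero.mp ht.symm).resolve_left hk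
      have e2 : false :: List.replicate (k + 1) true ++ [true] =
          false :: (List.replicate (k + 1 + 1) true ++ []) := by
        simp [List.replicate_succ' (n := k + 1)]
      rw [e2]
      exact h5
  · cases k with
    | zero => exact absurd rfl (hb u)
    | succ k =>
      have := part1 κ h1 h2 h3 k u
      simpa using this

end MP154526.W2
end

section
/-!
# Module R4A: the relation (R4) at a word of `A`
-/
set_option autoImplicit false

namespace MP154526.W2

open Finset MP154526.Bound MP154526.Top MP154526.Top.Pass2 MP154526.Hof

namespace R4AM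

/-- `f(ζ_i w)` for words ending with `y`. -/
theorem ze_snoc (i : ℕ) (b : List Bool) : ∀ f : List Bool → ℚ, (∀ v, f (v ++ [true]) = 0) →
    ze i f (b ++ [true]) = 0 := by
  induction b with
  | nil =>
    intro f hf
    have h1 := hf (false :: List.replicate i false)
    have h2 := hf (true :: List.replicate i false)
    simp only [List.nil_append, ze, xy]
    simp only [List.cons_append] at h1 h2
    rw [h1, h2]
    simp
  | cons a b ih =>
    intro f hf
    cases a with
    | false =>
      simp only [List.cons_append, ze]
      exact ih _ fun v => hf (false :: v)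
    | true =>
      simp only [List.cons_append, ze, xy]
      have h1 := hf (false :: (List.replicate i false ++ true :: b))
      have h2 := hf (true :: (List.replicate i false ++ true :: b))
      simp only [List.cons_append, List.append_assoc] at h1 h2
      rw [h1, h2, ih _ fun v => hf (true :: v)]
      simp

/-- `f(ζ_i b') = 0` if `f` vanishes on `A`. -/
theorem ze_A (i : ℕ) (f : List Bool → ℚ) (hf : ∀ b, f (false :: b ++ [true]) = 0) (b : List Bool) :
    ze i f (false :: b ++ [true]) = 0 := by
  simp only [List.cons_append, ze]
  exact ze_snoc i b _ fun v => by simpa using hf v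

theorem lw00 (b : List Bool) : lw 0 0 b = false :: b ++ [true] := by simp [lw]

end R4AM

open R4AM in
theorem specR4A (hLVZ : SpecLvZ) : SpecR4A := by
  intro g h00 h01 h10 b
  have hA : ∀ b, g (false :: b ++ [true]) = 0 := fun b => by rw [← lw00]; exact h00 b
  have low : Low g 0 0 := ⟨fun a h1 h2 => by omega, fun a h1 h2 => by omega, h00⟩
  -- `x ⧢` on `A`
  have hI : ∀ b, ins false g (false :: b ++ [true]) = 0 := by
    intro b
    have h := (hLVZ g 0 0 low b).1
    rw [lw00] at h
    rw [h, h01 b]
    have := h00 (false :: b)
    simp only [List.replicate_zero, List.nil_append]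
    rw [this]
    simp
  -- `g' = g(y ·)`
  have low' : Low (fun v => g (true :: v)) 0 0 := by
    refine ⟨fun a h1 h2 => by omega, fun a h1 h2 => by omega, fun c => ?_⟩
    have := h10 c
    simpa [lw] using this
  have hJ : ins false (fun v => g (true :: v)) (false :: b ++ [true]) = g (lw 1 1 b) := by
    have h := (hLVZ (fun v => g (true :: v)) 0 0 low' b).1
    rw [lw00] at h
    rw [h]
    have h2 := h10 (false :: b)
    have h3 : g (true :: lw 0 0 (List.replicate 0 true ++ false :: b)) = 0 := by
      simpa [lw] using h2
    rw [h3]
    have h4 : true :: lw 0 (0 + 1) b = lw 1 1 b := by simp [lw]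
    rw [h4]
    simp
  have e1 : jj 0 (ins false g) (lw 0 0 b) = g (lw 1 1 b) := by
    rw [lw00, jj, ze_A 0 _ hI b, add_zero]
    have : xy 0 (false :: b ++ [true]) = true :: (false :: b ++ [true]) := by simp [xy]
    rw [this, ins, hJ]
    have h5 := hA (true :: false :: b)
    simp only [List.cons_append] at h5 ⊢
    rw [h5, zero_add]
  have e2 : jj 1 g (lw 0 0 b) = 0 := by
    rw [lw00, jj, ze_A 1 _ hA b, add_zero]
    have h5 := hA (true :: false :: b)
    simpa [xy] using h5
  rw [e1, e2, add_zero]

end MP154526.W2
end

section
/-!
# W2, module R4C: the relation (R4) at the words `y b' x`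
-/
set_option autoImplicit false

namespace MP154526.W2

open Finset MP154526.Bound MP154526.Top MP154526.Top.Pass2 MP154526.Hof

namespace R4CM

/-- the words of `ζ_i (x b y)` are of the form `x c y` -/
theorem ze_zero (i : ℕ) (f : List Bool → ℚ) (b : List Bool)
    (hf : ∀ c, f (false :: c ++ [true] ++ [false]) = 0) :
    ze i f (false :: b ++ [true] ++ [false]) = 0 := by
  refine ze_zero_of (P := fun v => ∃ c, v = false :: c ++ [true] ++ [false]) i f _ ?_ ?_
  · rintro v ⟨c, rfl⟩
    exact hf c
  · intro u c v h
    rcases List.eq_nil_or_concat v with rfl | ⟨v', e, rfl⟩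
    · exfalso
      have h1 := (List.append_inj' h rfl).2
      simp at h1
    · rw [List.concat_eq_append] at h ⊢
      rcases u with _ | ⟨a, u⟩
      · exfalso
        simp at h
      · have h2 : false :: b ++ [true] ++ [false] = (a :: u ++ true :: v') ++ [e] := by
          rw [h]
          simp
        have h3 := List.append_inj' h2 rfl
        have h4 : e = false := by
          have := h3.2
          simpa using this.symm
        have h5 := h3.1
        have h6 : a = false := by
          simp at h5
          exact h5.1
        subst h4
        subst h6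
        rcases List.eq_nil_or_concat v' with rfl | ⟨v'', e', rfl⟩
        · exact ⟨u ++ c :: List.replicate i false, by simp [xy]⟩
        · rw [List.concat_eq_append] at h5 ⊢
          have h7 : false :: b ++ [true] = (false :: u ++ true :: v'') ++ [e'] := by
            rw [h5]
            simp
          have h8 := (List.append_inj' h7 rfl).2
          have h9 : e' = true := by
            simpa using h8.symm
          subst h9
          exact ⟨u ++ c :: (List.replicate i false ++ true :: v''), by simp [xy]⟩

end R4CM

theorem specR4C (hLvZ : SpecLvZ) : SpecR4C := by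
  intro g h00 h01 h10 h11 h12 h21 b
  have L21 : Low g 2 1 := ⟨fun a h1 h2 => by
      have : a = 1 ∨ a = 2 := by omega
      rcases this with rfl | rfl
      · exact h11
      · exact h21, fun r h1 h2 => by
      have : r = 1 := by omega
      subst this
      exact h21, h21⟩
  have L01 : Low g 0 1 := ⟨fun a h1 h2 => by omega, fun r h1 h2 => by
      have : r = 1 := by omega
      subst this
      exact h01, h01⟩
  have L11 : Low g 1 1 := ⟨fun a h1 h2 => by
      have : a = 1 := by omega
      subst this
      exact h11, fun r h1 h2 => by
      have : r = 1 := by omega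
      subst this
      exact h11, h11⟩
  -- the three parts of `x ⧢ J_1`
  have e1 : ins false g (lw 2 1 b) = 2 * g (lw 2 2 b) := by
    rw [(hLvZ g 2 1 L21 b).1, h01, add_zero]
    norm_num
  have e2 : ins false g (lw 0 1 (true :: false :: b)) = 2 * g (lw 0 2 (true :: false :: b)) := by
    rw [(hLvZ g 0 1 L01 _).1, h01, add_zero]
    norm_num
  have e3 : ∀ c, ins false g (lw 1 1 c) = 0 := by
    intro c
    rw [(hLvZ g 1 1 L11 c).1, h01, add_zero, h12, mul_zero]
  have hw : lw 1 1 b = true :: (false :: b ++ [true] ++ [false]) := by
    simp [lw]
  have j0 : jj 0 (ins false g) (lw 1 1 b) =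
      4 * g (lw 2 2 b) + 2 * g (lw 0 2 (true :: false :: b)) := by
    rw [hw, jj, ze, R4CM.ze_zero 0 (fun v => ins false g (true :: v)) b (fun c => by
      have := e3 c
      rw [show lw 1 1 c = true :: (false :: c ++ [true] ++ [false]) by simp [lw]] at this
      exact this)]
    rw [show xy 0 (true :: (false :: b ++ [true] ++ [false])) = lw 2 1 b by
        simp [lw, xy, List.replicate_succ],
      show false :: xy 0 (false :: b ++ [true] ++ [false]) = lw 0 1 (true :: false :: b) by
        simp [lw, xy],
      show true :: xy 0 (false :: b ++ [true] ++ [false]) = lw 2 1 b by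
        simp [lw, xy, List.replicate_succ], e1, e2]
    ring
  have j1 : jj 1 g (lw 1 1 b) = 0 := by
    rw [hw, jj, ze, R4CM.ze_zero 1 (fun v => g (true :: v)) b (fun c => by
      have := h11 c
      rw [show lw 1 1 c = true :: (false :: c ++ [true] ++ [false]) by simp [lw]] at this
      exact this)]
    rw [show xy 1 (true :: (false :: b ++ [true] ++ [false])) =
          lw 0 1 (true :: true :: false :: b) by simp [lw, xy],
      show false :: xy 1 (false :: b ++ [true] ++ [false]) =
          lw 0 1 (false :: true :: false :: b) by simp [lw, xy],
      show true :: xy 1 (false :: b ++ [true] ++ [false]) = lw 1 1 (true :: false :: b) by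
        simp [lw, xy], h01, h01, h11]
    ring
  rw [j0, j1, add_zero]

end MP154526.W2
end
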