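import Pool.Agent.Lib.MP_154526_nt.W2.Spec

/-!
# W2, module REL: the relations for `g = c ∘ ∂`
-/

set_option autoImplicit false

namespace MP154526.W2

open Finset MP154526.Bound MP154526.Top MP154526.Top.Pass2 MP154526.Hof

namespace RELM

theorem ins_snoc (a b : Bool) (f : List Bool → ℚ) (w : List Bool) :
    ins a f (w ++ [b]) = ins a (fun v => f (v ++ [b])) w + f (w ++ [b, a]) := by
  induction w generalizing f with
  | nil => simp [ins]
  | cons e w ih => simp only [List.cons_append, ins]; rw [ih]; ring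

theorem db_snoc (b : Bool) (f : List Bool → ℚ) (w : List Bool) :
    db f (w ++ [b]) = db (fun v => f (v ++ [b])) w + sg b * f (w ++ [true, false]) := by
  induction w generalizing f with
  | nil => simp [db]
  | cons e w ih => simp only [List.cons_append, db]; rw [ih]; ring

theorem dd_zero_fun (f : List Bool → ℚ) (w : List Bool) (hf : ∀ v, f v = 0) : dd f w = 0 :=
  dd_zero_of (P := fun _ => True) f w (fun v _ => hf v) (fun _ _ _ _ => trivial)

theorem jj_neg (i : ℕ) (f : List Bool → ℚ) (w : List Bool) :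
    jj i (fun v => -f v) w = -jj i f w := by
  have := jj_mul i (-1) f w
  simpa using this

/-- `f(wz)` -/
def Rz (f : List Bool → ℚ) (w : List Bool) : ℚ := f (w ++ [false]) + f (w ++ [true])

/-- `f(zw)` -/
def Lz (f : List Bool → ℚ) (w : List Bool) : ℚ := f (false :: w) + f (true :: w)

/-- `E(w) = c(wz) - c(∂w)` -/
def E (c : List Bool → ℚ) (w : List Bool) : ℚ := Rz c w - dd c w

theorem E_eq (hA : SpecOpA) (c : List Bool → ℚ) (w : List Bool) : E c w = Lz c w - db c w := by
  have := hA.ob c w
  simp only [E, Rz, Lz]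
  linarith

variable {n : ℕ} {σ : ℚ} {c : List Bool → ℚ}

theorem Rz_rev (h : HypL n σ c) (w : List Bool) : Rz c w.reverse = σ * Lz c w := by
  have h1 := h.rev (false :: w)
  have h2 := h.rev (true :: w)
  simp only [List.reverse_cons] at h1 h2
  rw [Rz, Lz, h1, h2]
  ring

theorem dd_rev (hA : SpecOpA) (h : HypL n σ c) (w : List Bool) :
    dd c w.reverse = σ * db c w := by
  have h1 := hA.orv (fun v => c v.reverse) w
  simp only [List.reverse_reverse] at h1
  have h2 : (fun v => c v.reverse) = fun v => σ * c v := by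
    funext v
    exact h.rev v
  rw [h2, db_mul] at h1
  exact h1.symm

/-- (h3) -/
theorem sym (hA : SpecOpA) (h : HypL n σ c) (w : List Bool) :
    db (dd c) w.reverse = σ * db (dd c) w := by
  have e1 : (fun v => dd c v.reverse) = fun v => σ * db c v := funext (dd_rev hA h)
  have h0 := hA.orv (dd c) w.reverse
  simp only [List.reverse_reverse] at h0
  rw [h0, e1, dd_mul, hA.oc]

theorem E_rev (hA : SpecOpA) (h : HypL n σ c) (w : List Bool) : E c w.reverse = σ * E c w := by
  rw [E_eq hA c w, E, Rz_rev h, dd_rev hA h]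
  ring

theorem zin_rev (hA : SpecOpA) (f : List Bool → ℚ) (hf : ∀ w, f w.reverse = σ * f w)
    (w : List Bool) : zin f w.reverse = σ * zin f w := by
  have h2 : (fun v => f v.reverse) = fun v => σ * f v := by
    funext v
    exact hf v
  have h3 : ∀ a, ins a f w.reverse = σ * ins a f w := by
    intro a
    rw [hA.orr a f w.reverse, List.reverse_reverse, h2, ins_mul]
  rw [zin, zin, h3, h3]
  ring

theorem zin_Rz (h : HypL n σ c) (w : List Bool) : zin (Rz c) w = -Rz (Rz c) w := by
  have h1 : ∀ a b, ins a (fun v => c (v ++ [b])) w = -c (w ++ [b, a]) := by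
    intro a b
    have h0 : ins a c (w ++ [b]) = 0 := by
      cases a
      · exact h.hx _
      · exact h.hy _
    rw [ins_snoc] at h0
    linarith
  have h2 : Rz c = fun v => (fun v => c (v ++ [false])) v + (fun v => c (v ++ [true])) v := rfl
  have h3 : ∀ a, ins a (Rz c) w = -c (w ++ [false, a]) + -c (w ++ [true, a]) := by
    intro a
    rw [h2, ins_add, h1, h1]
  rw [zin, h3, h3]
  simp only [Rz, List.append_assoc, List.cons_append, List.nil_append]
  ring

theorem zin_E (h : HypL n σ c) (w : List Bool) :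
    zin (E c) w = -Rz (E c) w - Rz (dd c) w - zin (dd c) w := by
  have h1 : E c = fun v => Rz c v + (-1) * dd c v := by
    funext v
    simp only [E]
    ring
  have h2 : zin (E c) w = zin (Rz c) w - zin (dd c) w := by
    rw [h1]
    have := zin_add (Rz c) (fun v => (-1) * dd c v) w
    rw [zin_mul] at this
    rw [this]
    ring
  have h3 : Rz (E c) w = Rz (Rz c) w - Rz (dd c) w := by
    simp only [Rz, E]
    ring
  rw [h2, zin_Rz h, h3]
  ring

theorem Lz_dd (f : List Bool → ℚ) (w : List Bool) : Lz (dd f) w = dd (Lz f) w := by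
  have h2 : Lz f = fun v => (fun v => f (false :: v)) v + (fun v => f (true :: v)) v := rfl
  rw [h2, dd_add]
  simp only [Lz, dd, sg]
  simp only [Bool.false_eq_true, if_false, if_true]
  ring

theorem Rz_db (f : List Bool → ℚ) (w : List Bool) : Rz (db f) w = db (Rz f) w := by
  have h2 : Rz f = fun v => (fun v => f (v ++ [false])) v + (fun v => f (v ++ [true])) v := rfl
  rw [h2, db_add]
  simp only [Rz, db_snoc, sg]
  simp only [Bool.false_eq_true, if_false, if_true]
  ring

/-- `E(wz) - E(zw) = g(zw) - σ g(z w̃)` -/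
theorem E_diff (hA : SpecOpA) (h : HypL n σ c) (w : List Bool) :
    Rz (E c) w - Lz (E c) w = Lz (dd c) w - σ * Lz (dd c) w.reverse := by
  have h1 : Rz (E c) w = Rz (Lz c) w - Rz (db c) w := by
    simp only [Rz, E_eq hA c]
    ring
  have h2 : Lz (E c) w = Lz (Rz c) w - Lz (dd c) w := by
    simp only [Lz, E]
    ring
  have h3 : Rz (Lz c) w = Lz (Rz c) w := by
    simp only [Rz, Lz, List.cons_append]
    ring
  have h4 : Rz (db c) w = σ * Lz (dd c) w.reverse := by
    rw [Rz_db, Lz_dd, hA.orv]
    have h5 : (fun v => Rz c v.reverse) = fun v => σ * Lz c v := by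
      funext v
      exact Rz_rev h v
    rw [h5, dd_mul]
  rw [h1, h2, h3, h4]
  ring

/-- (h4) -/
theorem Q_rev (hA : SpecOpA) (h : HypL n σ c) (w : List Bool) :
    QQ (dd c) w.reverse = σ * QQ (dd c) w := by
  have hs := h.sq
  have h1 := zin_rev hA (E c) (E_rev hA h) w
  have h2 := zin_E h w
  have h3 := zin_E h w.reverse
  have h4 := E_diff hA h w
  have h5 : Rz (E c) w.reverse = σ * Lz (E c) w := by
    have e1 := E_rev hA h (false :: w)
    have e2 := E_rev hA h (true :: w)
    simp only [List.reverse_cons] at e1 e2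
    rw [Rz, Lz, e1, e2]
    ring
  have hq : ∀ v, QQ (dd c) v = Lz (dd c) v + Rz (dd c) v + zin (dd c) v := fun v => rfl
  rw [hq, hq]
  rw [h1, h2, h5] at h3
  have h6 : σ * (Rz (E c) w - Lz (E c) w) =
      σ * Lz (dd c) w - (σ * σ) * Lz (dd c) w.reverse := by
    rw [h4]
    ring
  rw [hs] at h6
  linarith

/-- `g(z ⧢ ∂v) + g(∂₂v) = 0` -/
theorem rel3 (hA : SpecOpA) (h : HypL n σ c) (v : List Bool) :
    dd (zin (dd c)) v + d2 (dd c) v = 0 := by
  have hz : ∀ w, zin c w = 0 := by
    intro w
    rw [zin, h.hx, h.hy, add_zero]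
  have e1 : zin (dd c) = fun v => -d2 c v := by
    funext w
    rw [hA.oz, dd_zero_fun _ _ hz, zero_sub]
  rw [e1, dd_neg, hA.o2]
  ring

/-- `g(x ⧢ J_1 v) + g(J_2 v) = 0` -/
theorem rel4 (hB : SpecOpB) (h : HypL n σ c) (v : List Bool) :
    jj 0 (ins false (dd c)) v + jj 1 (dd c) v = 0 := by
  have hK : ins false (dd c) = jj 1 c := by
    funext w
    have h1 := hB.ox c w
    rw [dd_zero_fun (ins false c) w h.hx, zero_add] at h1
    exact h1
  have hJ : jj 0 c = fun v => -dd c v := by
    funext w
    have h1 := hB.oy c w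
    rw [h.hy w] at h1
    linarith
  rw [hK, ← hB.oj, hJ, jj_neg]
  ring

end RELM

/-- REL -/
theorem specREL (hOPA : Hof.SpecOpA) (hOPB : Hof.SpecOpB) : SpecRel := by
  intro n σ c h
  exact ⟨RELM.rel3 hOPA h, RELM.rel4 hOPB h, RELM.sym hOPA h, RELM.Q_rev hOPA h⟩

end MP154526.W2
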