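import Pool.Agent.Lib.MP_154526_nt.W2.Spec
import Pool.Agent.Lib.MP_154526_nt.Hof.TT
import Pool.Agent.Lib.MP_154526_nt.Top.Span

section
/-!
# SPN2: `ℌ⁰_n` is spanned by products, relations of weight at most two and expanded Lyndon words
(copy of `Hof/SPN.lean`)
-/
set_option autoImplicit false

namespace MP154526.W2

open Finset MP154526.Bound MP154526.Top MP154526.Hof

open _root_.MP154526.Top.Span in
theorem specSpn2 (hPP : Hof.SpecPP) (hTT : Hof.SpecTT) (hKDD : SpecKdd)
    (hF : MP154526.Top.SpecF2) (hA : MP154526.Top.SpecAlg) : SpecSpn2 := by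
  classical
  intro n hn
  set S := Submodule.span ℚ {z | ∃ i j a b, 1 ≤ i ∧ 1 ≤ j ∧ i + j = n ∧ a ∈ H0 i ∧ b ∈ H0 j ∧
      z = shuffle a b} ⊔ Submodule.span ℚ (RDS2 n) ⊔
    Submodule.span ℚ {z | ∃ w, IsLyn w ∧ (expand w).length = n ∧ z = wd (expand w)} with hS
  rw [H0, Submodule.span_le]
  rintro _ ⟨w₀, hw₀, hlen, rfl⟩
  by_contra hcon
  rcases hw₀ with rfl | ⟨u₀, rfl⟩
  · simp at hlen
    omega
  have hn2 : 2 ≤ n := by
    simp at hlen
    omega
  obtain ⟨f, hf0, hfS⟩ := Submodule.exists_le_ker_of_notMem hcon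
  -- the finite set of admissible words
  set T : Finset (List Bool) :=
    (List.finite_length_eq Bool n).toFinset.filter (fun w => Adm w) with hT
  have hmemT : ∀ w, w ∈ T ↔ w.length = n ∧ Adm w := by
    intro w
    simp [hT]
  obtain ⟨φ, κ, hκ, hφ, w₁, hw₁, hodd⟩ := primitive T (fun w => f (wd w)) (false :: u₀ ++ [true])
    ((hmemT _).2 ⟨hlen, Or.inr ⟨u₀, rfl⟩⟩) hf0
  have hlin : ∀ h ∈ H0 n, f h = κ * lin φ h := by
    intro h hh
    rw [lin_eq]
    refine Submodule.span_induction (p := fun h _ => f h = κ * linM φ h) ?_ ?_ ?_ ?_ hh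
    · rintro _ ⟨w, hw, hl, rfl⟩
      rw [linM_wd]
      exact hφ w ((hmemT w).2 ⟨hl, hw⟩)
    · simp
    · intro x y _ _ hx hy
      rw [map_add, map_add, hx, hy]
      ring
    · intro a x _ hx
      rw [map_smul, map_smul, hx, smul_eq_mul, smul_eq_mul]
      ring
  have hzero : ∀ h ∈ H0 n, h ∈ S → lin φ h = 0 := by
    intro h hh hS'
    have h3 := hfS hS'
    rw [LinearMap.mem_ker, hlin h hh] at h3
    rcases mul_eq_zero.1 h3 with h4 | h4
    · exact absurd h4 hκ
    · exact h4
  have hK2 : KD2 n φ := by
    constructor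
    · intro i j hi hj hij a ha b hb
      refine hzero _ (hij ▸ hA.h0 i j a ha b hb) ?_
      exact Submodule.mem_sup_left (Submodule.mem_sup_left
        (Submodule.subset_span ⟨i, j, a, b, hi, hj, hij, ha, hb, rfl⟩))
    · intro r hr
      refine hzero r hr.1 ?_
      exact Submodule.mem_sup_left (Submodule.mem_sup_right (Submodule.subset_span hr))
  have hK : KD n φ := hKDD n φ hn2 hK2
  have hP1 := hPP n φ hn2 hK
  have hP2 := hTT n φ hn2 hK
  have hLyn : ∀ w, IsLyn w → (expand w).length = n → ((ext φ (expand w) : ℤ) : ZMod 2) = 0 := by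
    intro w hw hwl
    have hform : ∃ v, expand w = false :: v ∧ Adm (expand w) := by
      have hend : ∀ u : List Bool, u ≠ [] → ∃ v, expand u = false :: v ++ [true] := by
        intro u
        induction u with
        | nil => intro h; exact absurd rfl h
        | cons a u ih =>
          intro _
          by_cases hu : u = []
          · subst hu
            cases a
            · exact ⟨[], rfl⟩
            · exact ⟨[true], rfl⟩
          · obtain ⟨v, hv⟩ := ih hu
            cases a
            · exact ⟨true :: false :: v, by simp [expand, hv]⟩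
            · exact ⟨true :: true :: false :: v, by simp [expand, hv]⟩
      obtain ⟨v, hv⟩ := hend w hw.1
      exact ⟨v ++ [true], by simpa using hv, Or.inr ⟨v, hv⟩⟩
    obtain ⟨v, hv, hadm⟩ := hform
    have h5 : lin φ (wd (expand w)) = 0 := by
      refine hzero _ (Submodule.subset_span ⟨expand w, hadm, hwl, rfl⟩) ?_
      exact Submodule.mem_sup_right (Submodule.subset_span ⟨w, hw, hwl, rfl⟩)
    rw [lin_eq, linM_wd] at h5
    have h6 : φ (expand w) = 0 := by exact_mod_cast h5
    rw [hv, ext_false, ← hv, h6]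
    simp
  have hall := hF n (fun w => ((ext φ w : ℤ) : ZMod 2)) hn2 hP1.1 hP1.2 hP2 hLyn
  obtain ⟨hl₁, hadm₁⟩ := (hmemT w₁).1 hw₁
  rcases hadm₁ with rfl | ⟨u₁, rfl⟩
  · simp at hl₁
    omega
  have h7 := hall (false :: u₁ ++ [true]) (Or.inr ⟨false :: u₁, rfl⟩) hl₁
  simp only [List.cons_append, ext_false] at h7
  exact hodd ((ZMod.intCast_zmod_eq_zero_iff_dvd _ 2).1 (by simpa using h7))

end MP154526.W2
end

section
/-!
# ST1: the levels (1,1) and (0,2)
-/
set_option autoImplicit false

namespace MP154526.W2.ST1M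

open Finset MP154526.Bound MP154526.Top MP154526.Top.Pass2 MP154526.Hof MP154526.W2

/-- `κ(x y) = 0` from `r3` at `x x` -/
theorem base (σ : ℚ) (g : List Bool → ℚ) (hR : RelL σ g) (z00 : Z g 0 0) (z01 : Z g 0 1)
    (z10 : Z g 1 0) (z11 : Z g 1 1) : g [false, true, false, false] = 0 := by
  have h := hR.r3 [false, false]
  have e1 : g [false, false, true, false] = 0 := z01 [false]
  have e2 : g [true, false, true, false] = 0 := z11 []
  have e3 : g [false, true, true, false] = 0 := z01 [true]
  have e4 : g [false, true, false, true] = 0 := z00 [true, false]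
  have e5 : g [false, false, false, true] = 0 := z00 [false, false]
  have e6 : g [true, false, false, true] = 0 := z10 [false]
  have e7 : g [false, false, true, true] = 0 := z00 [false, true]
  simp only [dd, d2, zin, ins, sg, e1, e2, e3, e4, e5, e6, e7] at h
  norm_num at h
  linarith

end MP154526.W2.ST1M

namespace MP154526.W2

open Finset MP154526.Bound MP154526.Top MP154526.Top.Pass2 MP154526.Hof

theorem specSt1 (hKey : SpecKey) (hR3 : SpecR3K) (hA : SpecR4A) (hB : SpecR4B) (hC : SpecR4C)
    (hDx : SpecDx) (hPhi : SpecPhi) : SpecSt1 := by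
  intro σ g hσ hR z00 z01 z10
  have z11 : Z g 1 1 := fun b => by
    have h := hA g z00 z01 z10 b
    rw [hR.r4] at h
    exact h.symm
  refine ⟨z11, ?_⟩
  have l11 : Low g 1 1 :=
    ⟨fun a h1 h2 => by
      obtain rfl : a = 1 := by omega
      exact z11,
     fun r h1 h2 => by
      obtain rfl : r = 1 := by omega
      exact z11, z11⟩
  have z12 : Z g 1 2 := fun b => by
    obtain ⟨h1, h2⟩ := hKey σ g hσ hR z00 z01 z10 1 1 le_rfl le_rfl l11 b
    rw [z01, z10, h1] at h2
    norm_num at h2
    linarith
  have z21 : Z g 2 1 := fun b => by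
    obtain ⟨h1, h2⟩ := hKey σ g hσ hR z00 z01 z10 1 1 le_rfl le_rfl l11 b
    exact h1.trans (z12 b)
  have l12 : Low g 1 2 :=
    ⟨fun a h1 h2 => by
      obtain rfl : a = 1 := by omega
      exact z12,
     fun r h1 h2 => by
      obtain rfl | rfl : r = 1 ∨ r = 2 := by omega
      · exact z11
      · exact z12, z12⟩
  have hX : ∀ b, g (lw 0 2 (true :: false :: b)) = 0 := fun b => by
    obtain ⟨h1, h2⟩ := hKey σ g hσ hR z00 z01 z10 1 2 le_rfl (by omega) l12 b
    rw [z10] at h2
    have h3 := hC g z00 z01 z10 z11 z12 z21 b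
    rw [hR.r4] at h3
    have e1 : g (lw (1 + 1) 2 b) = g (lw 2 2 b) := rfl
    have e2 : List.replicate 1 true ++ false :: b = true :: false :: b := rfl
    rw [← h1, e1, e2] at h2
    norm_num at h2
    linarith
  set κ : List Bool → ℚ := fun v => g (v ++ [false, false]) with hκ
  have k1 : ∀ b, dd κ (false :: b ++ [true]) = 0 := fun b => by
    have h := hR3 g 1 (fun r hr => by
      obtain rfl | rfl : r = 0 ∨ r = 1 := by omega
      · exact z00
      · exact z01) (fun r hr => by
      obtain rfl | rfl : r = 0 ∨ r = 1 := by omega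
      · exact z10
      · exact z11) b
    rw [hR.r3] at h
    have e : (fun v => g (v ++ List.replicate (1 + 1) false)) = κ := rfl
    rw [e] at h
    norm_num at h
    simpa using h
  have k2 : ∀ b, ze 0 κ (false :: b ++ [true]) = 0 := fun b => by
    have h := hB g z00 z01 z10 z11 b
    rw [hR.r4, z12] at h
    norm_num at h
    simpa using h
  have k3 : ∀ b, κ (false :: (true :: false :: b) ++ [true]) = 0 := fun b => hX b
  have k4 : κ [false, true] = 0 := ST1M.base σ g hR z00 z01 z10 z11
  have k5 := hPhi κ k1 k2 k3 k4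
  have k6 := hDx κ k1 k5
  intro b
  exact k6 b

end MP154526.W2
end

section
/-!
# STN: the level `N + 1`, `N ≥ 2`
-/
set_option autoImplicit false

namespace MP154526.W2

open Finset MP154526.Bound MP154526.Top MP154526.Top.Pass2 MP154526.Hof

namespace STNM

theorem key (hK : SpecKey) (σ : ℚ) (g : List Bool → ℚ) (N : ℕ) (hσ : σ * σ = 1) (hR : RelL σ g)
    (hN : 2 ≤ N) (hZ : ∀ i j, i + j ≤ N → Z g i j) (i j : ℕ) (hi : 1 ≤ i) (hj : 1 ≤ j)
    (hij : i + j = N) : Z g (i + 1) j ∧ Z g i (j + 1) := by
  have hlow : Low g i j :=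
    ⟨fun a _ ha => hZ a j (by omega), fun r _ hr => hZ i r (by omega), hZ i j (by omega)⟩
  have h := hK σ g hσ hR (hZ 0 0 (by omega)) (hZ 0 1 (by omega)) (hZ 1 0 (by omega)) i j hi hj hlow
  have h0 : ∀ b, g (lw (i + 1) j b) = 0 := by
    intro b
    obtain ⟨h1, h2⟩ := h b
    rw [hZ 0 j (by omega), hZ i 0 (by omega), ← h1] at h2
    have h3 : ((i : ℚ) + j + 4) * g (lw (i + 1) j b) = 0 := by linarith
    rcases mul_eq_zero.1 h3 with h4 | h4
    · exfalso
      have : (0 : ℚ) < (i : ℚ) + j + 4 := by positivity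
      linarith
    · exact h4
  exact ⟨h0, fun b => by rw [← (h b).1]; exact h0 b⟩

theorem mid (hK : SpecKey) (σ : ℚ) (g : List Bool → ℚ) (N : ℕ) (hσ : σ * σ = 1) (hR : RelL σ g)
    (hN : 2 ≤ N) (hZ : ∀ i j, i + j ≤ N → Z g i j) (i j : ℕ) (hi : 1 ≤ i) (hj : 1 ≤ j)
    (hij : i + j = N + 1) : Z g i j := by
  rcases Nat.lt_or_ge 1 i with h | h
  · obtain ⟨i', rfl⟩ : ∃ i', i = i' + 1 := ⟨i - 1, by omega⟩
    exact (key hK σ g N hσ hR hN hZ i' j (by omega) hj (by omega)).1
  · obtain rfl : i = 1 := by omega
    obtain ⟨j', rfl⟩ : ∃ j', j = j' + 1 := ⟨j - 1, by omega⟩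
    exact (key hK σ g N hσ hR hN hZ 1 j' le_rfl (by omega) (by omega)).2

end STNM

open STNM in
/-- STN -/
theorem specStN (hK : SpecKey) (hR3 : SpecR3K) (hM : SpecMrev) (hD : SpecDx) : SpecStN := by
  intro σ g N hσ hR hN hZ i j hij hj
  rcases Nat.eq_zero_or_pos i with rfl | hi
  · obtain rfl : j = N + 1 := by omega
    have h1N : Z g 1 N := mid hK σ g N hσ hR hN hZ 1 N le_rfl (by omega) (by omega)
    have hlw : ∀ b, lw 0 (N + 1) b = (false :: b ++ [true]) ++ List.replicate (N + 1) false := by
      intro b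
      simp [lw]
    have hκ := hD (fun v => g (v ++ List.replicate (N + 1) false)) ?_ ?_
    · intro b
      rw [hlw]
      exact hκ b
    · intro b
      have h3 := hR3 g N (fun r hr => hZ 0 r (by omega)) (fun r hr => ?_) b
      · rw [hR.r3] at h3
        rcases mul_eq_zero.1 h3.symm with h4 | h4
        · exfalso
          have : (0 : ℚ) < (N : ℚ) + 1 := by positivity
          linarith
        · exact h4
      · rcases Nat.lt_or_ge r N with h | h
        · exact hZ 1 r (by omega)
        · obtain rfl : r = N := le_antisymm hr h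
          exact h1N
    · intro b hb
      have := hM σ g N hσ hR hN hZ h1N b hb
      rw [hlw] at this
      exact this
  · exact mid hK σ g N hσ hR hN hZ i j hi hj hij

end MP154526.W2
end

section
/-!
W2, module SYM: `c ∘ th` (reversal and exchange of letters) satisfies the same hypotheses.
-/
set_option autoImplicit false

namespace MP154526.W2

open Finset MP154526.Bound MP154526.Top MP154526.Top.Pass2 MP154526.Hof

namespace SYMM

theorem th_cons (b : Bool) (w : List Bool) : th (b :: w) = th w ++ [!b] := by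
  simp [th]

theorem th_append (u w : List Bool) : th (u ++ w) = th w ++ th u := by
  simp [th]

theorem th_th (w : List Bool) : th (th w) = w := by
  simp [th, Function.comp_def]

theorem th_length (w : List Bool) : (th w).length = w.length := by
  simp [th]

theorem th_reverse (w : List Bool) : th w.reverse = (th w).reverse := by
  simp [th]

theorem th_replicate (n : ℕ) (b : Bool) : th (List.replicate n b) = List.replicate n (!b) := by
  simp [th]

theorem th_lw (i j : ℕ) (b : List Bool) : th (lw i j b) = lw j i (th b) := by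
  unfold lw
  rw [th_append, th_append, th_replicate, th_replicate, th_append, th_cons]
  simp [th]

theorem sg_not (b : Bool) : sg (!b) = -sg b := by
  cases b <;> simp [sg]

theorem dd_snoc (f : List Bool → ℚ) (w : List Bool) (b : Bool) :
    dd f (w ++ [b]) = dd (fun v => f (v ++ [b])) w + sg b * f (w ++ [false, true]) := by
  induction w generalizing f with
  | nil => simp [dd]
  | cons a w ih =>
    simp only [List.cons_append, dd, ih]
    ring

theorem dd_th (c : List Bool → ℚ) (w : List Bool) :
    dd (fun v => c (th v)) w = -dd c (th w) := by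
  induction w generalizing c with
  | nil => simp [dd, th]
  | cons b w ih =>
    have h1 : (fun v => c (th (b :: v))) = fun v => (fun s => c (s ++ [!b])) (th v) := by
      funext v
      rw [th_cons]
    have h2 : th (false :: true :: w) = th w ++ [false, true] := by
      rw [th_cons, th_cons]
      simp
    rw [th_cons, dd_snoc, sg_not]
    simp only [dd]
    rw [h1, ih (fun s => c (s ++ [!b])), h2]
    ring

theorem ins_not (a : Bool) (c : List Bool → ℚ) (w : List Bool) :
    ins a (fun v => c (v.map (!·))) w = ins (!a) c (w.map (!·)) := by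
  induction w generalizing c with
  | nil => simp [ins]
  | cons b w ih =>
    have h : (fun v => c ((b :: v).map (!·))) =
        fun v => (fun s => c ((!b) :: s)) (v.map (!·)) := by
      funext v
      simp
    simp only [ins, List.map_cons] at ih ⊢
    rw [← ih]

theorem ins_th (hA : Hof.SpecOpA) (a : Bool) (c : List Bool → ℚ) (w : List Bool) :
    ins a (fun v => c (th v)) w = ins (!a) c (th w) := by
  rw [hA.orr]
  have h : (fun v : List Bool => (fun v => c (th v)) v.reverse) = fun v => c (v.map (!·)) := by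
    funext v
    simp [th]
  rw [h, ins_not]
  rfl

theorem hypL (hA : Hof.SpecOpA) (n : ℕ) (σ : ℚ) (c : List Bool → ℚ) (h : HypL n σ c) :
    HypL n σ (fun w => c (th w)) where
  sq := h.sq
  hom w hw := h.hom _ (by rw [th_length]; exact hw)
  hx w := by rw [ins_th hA]; exact h.hy _
  hy w := by rw [ins_th hA]; exact h.hx _
  rev w := by rw [th_reverse]; exact h.rev _
  l00 b := by rw [dd_th, th_lw, h.l00, neg_zero]
  l01 b := by rw [dd_th, th_lw, h.l10, neg_zero]
  l10 b := by rw [dd_th, th_lw, h.l01, neg_zero]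

end SYMM

theorem specSym (hA : Hof.SpecOpA) : SpecSym where
  hyp := SYMM.hypL hA
  dth := SYMM.dd_th
  lth := SYMM.th_lw
  tth := SYMM.th_th

end MP154526.W2
end
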