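import Pool.Agent.Lib.MP_154526_nt.W2.Spec
import Pool.Agent.Lib.MP_154526_nt.Low.Ideal
import Pool.Agent.Lib.MP_154526_nt.Hof.Asm
import Pool.Agent.Lib.MP_154526_nt.W2.REL
import Pool.Agent.Lib.MP_154526_nt.W2.SYM
import Pool.Agent.Lib.MP_154526_nt.W2.R4B
import Pool.Agent.Lib.MP_154526_nt.W2.R4C
import Pool.Agent.Lib.MP_154526_nt.W2.CEX2
import Pool.Agent.Lib.MP_154526_nt.W2.FR
import Pool.Agent.Lib.MP_154526_nt.W2.KDD
import Pool.Agent.Lib.MP_154526_nt.W2.FNI2

section
/-!
# END2: the ideal generated by the relations of weight at most two is the span of all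
regularised double shuffle elements
-/
set_option autoImplicit false

namespace MP154526.W2

open Finset MP154526.Bound MP154526.Top MP154526.Top.Pass2 MP154526.Hof

namespace END2M

theorem rds_of_rds2 (p : ℕ) (r : H) (hr : r ∈ RDS2 p) : r ∈ RDS p := by
  obtain ⟨h0, w₁, w₀, h1, _, h3, h4, h5⟩ := hr
  exact ⟨h0, w₁, w₀, h1, h3, h4, h5⟩

theorem I_le (p : ℕ) : I2 p ≤ Submodule.span ℚ (RDS p) := by
  rw [← Low.ideal_eq_span, I2, J]
  refine Submodule.span_mono ?_
  rintro z ⟨q, r, h, hq, hr, hh, rfl⟩
  exact ⟨q, r, h, hq, rds_of_rds2 q r hr, hh, rfl⟩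

end END2M

open END2M in
/-- END2 -/
theorem specEnd2 (hF : SpecFni2) : SpecEnd2 := by
  intro p
  have hfin := Low.Ex.finite_H0 p
  have hle := I_le p
  have hR : Submodule.span ℚ (RDS p) ≤ H0 p := Submodule.span_le.2 fun r hr => hr.1
  refine le_antisymm hle ?_
  have h1 := hF p
  have h2 : Module.finrank ℚ (H0 p ⧸ (Submodule.span ℚ (RDS p)).comap (H0 p).subtype) = D p := by
    have := (Low.asmStatement p).codim
    rw [← Module.finrank_eq_rank] at this
    exact_mod_cast this
  have e1 := Submodule.finrank_quotient_add_finrank ((I2 p).comap (H0 p).subtype)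
  have e2 := Submodule.finrank_quotient_add_finrank
    ((Submodule.span ℚ (RDS p)).comap (H0 p).subtype)
  have h3 : (I2 p).comap (H0 p).subtype = (Submodule.span ℚ (RDS p)).comap (H0 p).subtype := by
    refine Submodule.eq_of_le_of_finrank_le (Submodule.comap_mono hle) ?_
    omega
  intro x hx
  have : (⟨x, hR hx⟩ : H0 p) ∈ (Submodule.span ℚ (RDS p)).comap (H0 p).subtype := hx
  rw [← h3] at this
  exact this

end MP154526.W2
end

section
/-!
# Weight two suffices: assembly
-/
set_option autoImplicit false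

namespace MP154526.W2

open MP154526.Bound MP154526.Top MP154526.Hof

theorem asmLvQ : SpecLvQ := specLVQ specLvZ

theorem asmKey : SpecKey := specKEY specLvM asmLvQ

theorem asmR3K : SpecR3K := specR3K specLvZ

theorem asmRel : SpecRel := specREL specOpA specOpB

theorem asmSym : SpecSym := specSym specOpA

theorem asmMrev : SpecMrev := specMrev specLvM

theorem asmSt1 : SpecSt1 :=
  specSt1 asmKey asmR3K (specR4A specLvZ) (specR4B specLvZ) (specR4C specLvZ) specDx specPhi

theorem asmStN : SpecStN := specStN asmKey asmR3K asmMrev specDx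

theorem asmAll : SpecAll := specAll asmRel asmSym asmSt1 asmStN

theorem asmHypOf : SpecHypOf := specHypOf asmAll

theorem asmJJ2 : SpecJJ2 := specJJ2 specCex2 specFr specJs

theorem asmHypL : SpecHypL := specHypL specCex2 specAnt asmJJ2 specOpB

theorem asmKdd : SpecKdd := specKdd asmHypL asmHypOf specOpB specCex2 specJs

theorem asmSpn2 : SpecSpn2 := specSpn2 specPP asmTT asmKdd MP154526.Top.asmF2 specAlg

theorem asmFni2 : SpecFni2 := specFni2 asmSpn2

/-- the ideal generated by the relations with `w₁` of weight at most two -/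
theorem asmEnd2 : SpecEnd2 := specEnd2 asmFni2

end MP154526.W2
end
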