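import Pool.Agent.Lib.MP_154526_nt.Hof.TT
import Pool.Agent.Lib.MP_154526_nt.Top.Pass2Main

/-!
# Weight two suffices: exact statements of all modules, with proofs

THEOREM W2.  The ideal of `(ℌ⁰, ⧢)` generated by the regularised double shuffle elements
`reg(w₁ ⧢ w₀ - w₁ * w₀)` with `w₁` of weight `≤ 2` (`w₁ = y, xy, yy`) is, in every weight `p`, the
span of all regularised double shuffle elements.

Paper: `/team-store/MP_154526_nt_W2_h2.md`.  Words: `List Bool`, `false = x`, `true = y`;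
`A` = words `x..y` = `false :: b ++ [true]`; the words containing both letters in the wrong or right
order are `y^i b' x^j` with `b'` in `A`: `lw i j b` below, its LEVEL is `i + j`.
An operator `T` on words appears through `f ↦ (w ↦ f(T w))`; `f(S(T w))` is `T (S f) w`.
All operators (`ins, dd, db, d2, ze, jj, zin`) and their linearity: `Hof/Defs.lean`,
`Hof/Basic.lean`; `SpecOpA`, `SpecOpB` (identities between operators): `Hof/Spec.lean`.
-/

set_option autoImplicit false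

namespace MP154526.W2

open Finset MP154526.Bound MP154526.Top MP154526.Top.Pass2 MP154526.Hof

/-! ## Definitions -/

/-- the regularised double shuffle elements `reg(w₁ ⧢ w₀ - w₁ * w₀)` of weight `p` with `w₁` of
weight at most two -/
def RDS2 (p : ℕ) : Set H :=
  {r | r ∈ H0 p ∧ ∃ w₁ w₀ : List ℕ, Idx1 w₁ ∧ w₁.sum ≤ 2 ∧ Idx0 w₀ ∧ w₁.sum + w₀.sum = p ∧
    IsReg (shuffle (wd (word w₁)) (wd (word w₀)) - stuffle w₁ w₀) r}

/-- the weight `p` part of the ideal of `(ℌ⁰, ⧢)` generated by these elements -/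
noncomputable def I2 (p : ℕ) : Submodule ℚ H :=
  Submodule.span ℚ {z | ∃ q r h, q ≤ p ∧ r ∈ RDS2 q ∧ h ∈ H0 (p - q) ∧ z = shuffle r h}

/-- the hypotheses on an integral functional in weight `n` -/
structure KD2 (n : ℕ) (φ : List Bool → ℤ) : Prop where
  prod : ∀ i j, 1 ≤ i → 1 ≤ j → i + j = n → ∀ a ∈ H0 i, ∀ b ∈ H0 j, lin φ (shuffle a b) = 0
  rds2 : ∀ r ∈ RDS2 n, lin φ r = 0

/-- `y^i b' x^j`, `b' = x b y` in `A` -/
def lw (i j : ℕ) (b : List Bool) : List Bool :=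
  List.replicate i true ++ (false :: b ++ [true]) ++ List.replicate j false

/-- `g` vanishes on the words `y^i b' x^j` -/
def Z (g : List Bool → ℚ) (i j : ℕ) : Prop := ∀ b, g (lw i j b) = 0

/-- `Q(w) = g(zw) + g(wz) + g(z ⧢ w)` -/
def QQ (g : List Bool → ℚ) (w : List Bool) : ℚ :=
  (g (false :: w) + g (true :: w)) + (g (w ++ [false]) + g (w ++ [true])) + zin g w

/-- `c` lives in length `n`, kills `x ⧢`, `y ⧢`, is `σ`-symmetric, and `g = c ∘ ∂` vanishes on the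
words of level `≤ 1` -/
structure HypL (n : ℕ) (σ : ℚ) (c : List Bool → ℚ) : Prop where
  sq : σ * σ = 1
  hom : ∀ w, w.length ≠ n → c w = 0
  hx : ∀ w, ins false c w = 0
  hy : ∀ w, ins true c w = 0
  rev : ∀ w, c w.reverse = σ * c w
  l00 : Z (dd c) 0 0
  l01 : Z (dd c) 0 1
  l10 : Z (dd c) 1 0

/-! ## Part A: relations for `g = c ∘ ∂` -/

/-- REL (from OPA, OPB; copy from `Hof/H1.lean`, `H2.lean`, `H3.lean` (`H3M.sym`), `H4.lean`
(`H4aux.Q_rev`), where `Hyp` can be replaced by `HypL` word for word).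
`r3`: `g(z ⧢ ∂v) + g(∂₂v) = 0`: `oz` gives `zin (dd c) w = -d2 c w` (`c` kills `z ⧢`), apply `dd`,
use `o2`.  `r4`: `g(x ⧢ J_1 v) + g(J_2 v) = 0`: `ox` gives `ins false (dd c) = jj 1 c`, `oy` gives
`jj 0 c = -dd c`, use `oj`.  `rm`, `rq`: (h3), (h4). -/
structure RelL (σ : ℚ) (g : List Bool → ℚ) : Prop where
  r3 : ∀ v, dd (zin g) v + d2 g v = 0
  r4 : ∀ v, jj 0 (ins false g) v + jj 1 g v = 0
  rm : ∀ w, db g w.reverse = σ * db g w
  rq : ∀ w, QQ g w.reverse = σ * QQ g w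

/-- REL -/
def SpecRel : Prop := ∀ (n : ℕ) (σ : ℚ) (c : List Bool → ℚ), HypL n σ c → RelL σ (dd c)

/-- SYM.  `c' = c ∘ th` (`th` = reversal and exchange of letters, `Hof/Defs.lean`) satisfies the
same hypotheses.  `ins a (c ∘ th) w = ins (!a) c (th w)` (reversal: `SpecOpA.orr`; letterwise: by
induction); `dd (c ∘ th) w = -dd c (th w)` (`th ∂ th = -∂`: `x -> -xy`, `y -> xy`; e.g. first
`dd f (w ++ [b])`, then induction); `th (lw i j b) = lw j i (th b)`. -/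
structure SpecSym : Prop where
  hyp : ∀ (n : ℕ) (σ : ℚ) (c : List Bool → ℚ), HypL n σ c → HypL n σ (fun w => c (th w))
  dth : ∀ (c : List Bool → ℚ) (w : List Bool), dd (fun v => c (th v)) w = -dd c (th w)
  lth : ∀ (i j : ℕ) (b : List Bool), th (lw i j b) = lw j i (th b)
  tth : ∀ w, th (th w) = w

/-! ## Part B: expansions on words `lw i j b`.  `g` is any function on words. -/

/-- the levels which occur in the row and the column below `(i, j)` -/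
structure Low (g : List Bool → ℚ) (i j : ℕ) : Prop where
  row : ∀ a, 1 ≤ a → a ≤ i → Z g a j
  col : ∀ r, 1 ≤ r → r ≤ j → Z g i r
  mid : Z g i j

/-- LVM.  `g(∂'(y^i b x^j)) = g(y^{i+1} b x^j) - g(y^i b x^{j+1})`.
`db f (u ++ v) = db (fun s => f (s ++ v)) u + db (fun s => f (u ++ s)) v`.  Part `y^i`: the words
`y^a (yx) y^c b x^j`, `a + c = i - 1`, are `lw (a+1) j _`: `row`.  Part `x^j`: the words
`y^i b x^q (yx) x^r`, `q + r = j - 1`, are `lw i (r+1) _`: `col`.  Part `b = x b' y`: the first letter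
gives `y x b' y`, that is `lw (i+1) j`, the last one gives `-x b' y x`, that is `-lw i (j+1)`; the
others give `lw i j _`: `mid` (use `db_zero_of` for `b'`). -/
def SpecLvM : Prop :=
  ∀ (g : List Bool → ℚ) (i j : ℕ), Low g i j → ∀ b,
    db g (lw i j b) = g (lw (i + 1) j b) - g (lw i (j + 1) b)

/-- LVZ.  `g(z ⧢ y^i b x^j)`.  `ins a f (u ++ v)` in terms of `u` and `v` (positions inside `u`, then
positions of `v`).  `ins false`: before the first letter: `lw 0 j (y^i x b)` (if `i = 0` this is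
`mid`, and it counts as `lw 0 j (x b)`); `y^a x y^{i-a} b x^j`, `0 < a < i`: `row`; between `y^i` and
`b'`, inside `b'`: `mid`; after `b'`: `j + 1` times `lw i (j+1) b`.  `ins true` in the mirror image:
`i + 1` times `lw (i+1) j b`, then `mid`, `col`, and the last position `lw i 0 (b y x^j)` (if `j = 0`
this is `mid`). -/
def SpecLvZ : Prop :=
  ∀ (g : List Bool → ℚ) (i j : ℕ), Low g i j → ∀ b,
    ins false g (lw i j b) = ((j : ℚ) + 1) * g (lw i (j + 1) b) +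
      g (lw 0 j (List.replicate i true ++ false :: b)) ∧
    ins true g (lw i j b) = ((i : ℚ) + 1) * g (lw (i + 1) j b) +
      g (lw i 0 (b ++ true :: List.replicate j false))

/-- LVQ (from LVZ): `x y^i b' x^j = lw 0 j (y^i x b)`, `y^i b' x^j y = lw i 0 (b y x^j)`. -/
def SpecLvQ : Prop :=
  ∀ (g : List Bool → ℚ) (i j : ℕ), Low g i j → ∀ b,
    QQ g (lw i j b) = ((i : ℚ) + 2) * g (lw (i + 1) j b) + ((j : ℚ) + 2) * g (lw i (j + 1) b) +
      2 * g (lw 0 j (List.replicate i true ++ false :: b)) +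
      2 * g (lw i 0 (b ++ true :: List.replicate j false))

/-- KEY (from LVM, LVQ).  `i, j ≥ 1`: the reversal of `lw i j b = y^i x b y x^j` is
`x^j y b~ x y^i = lw 0 0 (x^{j-1} y b~ x y^{i-1})`, and by LVM, LVQ at `(0, 0)` the functions `db g`
and `QQ g` vanish there (`Z g 0 0`, `Z g 0 1`, `Z g 1 0`).  So by `rm`, `rq` (`σ² = 1`)
`db g (lw i j b) = QQ g (lw i j b) = 0`; expand by LVM, LVQ. -/
def SpecKey : Prop :=
  ∀ (σ : ℚ) (g : List Bool → ℚ), σ * σ = 1 → RelL σ g → Z g 0 0 → Z g 0 1 → Z g 1 0 →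
    ∀ i j, 1 ≤ i → 1 ≤ j → Low g i j → ∀ b,
      g (lw (i + 1) j b) = g (lw i (j + 1) b) ∧
      ((i : ℚ) + 2) * g (lw (i + 1) j b) + ((j : ℚ) + 2) * g (lw i (j + 1) b) +
        2 * g (lw 0 j (List.replicate i true ++ false :: b)) +
        2 * g (lw i 0 (b ++ true :: List.replicate j false)) = 0

/-- R3K (from LVZ).  (R3) at `v = b' x^j`.  `dd F (u ++ v)` as for `db`.  `∂v = (∂b') x^j +
∑ b' x^q (xy) x^r`, `q + r = j - 1`; the latter are `lw 0 r _` with `r < j` and `zin g` vanishes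
there by LVZ (`Low g 0 r`, and `Z g 0 (r+1)`, `Z g 1 r`, `Z g 0 0`).  The words of `∂b'` are in `A`,
and `zin g (lw 0 j s) = (j+1) g(lw 0 (j+1) s) + g(lw 1 j s)`: here `g(lw 1 j s) = 0` by hypothesis
`Z g 1 j`.  `d2 g (b' x^j) = 0`: all words are `lw 0 r _`, `r ≤ j`. -/
def SpecR3K : Prop :=
  ∀ (g : List Bool → ℚ) (j : ℕ), (∀ r, r ≤ j → Z g 0 r) → (∀ r, r ≤ j → Z g 1 r) → ∀ b,
    dd (zin g) (lw 0 j b) + d2 g (lw 0 j b) =
      ((j : ℚ) + 1) * dd (fun v => g (v ++ List.replicate (j + 1) false)) (false :: b ++ [true])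

/-- R4A.  (R4) at `b'`: `J_1 b' = y b' + ζ_1 b'`; `x ⧢ y b' = x y b' + y (x ⧢ b')`, and only
`y b' x = lw 1 1 b` has level `> 1`; `x ⧢ ζ_1 b'`, `J_2 b'`: levels `≤ 1`. -/
def SpecR4A : Prop :=
  ∀ (g : List Bool → ℚ), Z g 0 0 → Z g 0 1 → Z g 1 0 → ∀ b,
    jj 0 (ins false g) (lw 0 0 b) + jj 1 g (lw 0 0 b) = g (lw 1 1 b)

/-- R4B.  (R4) at `b' x`, if also `Z g 1 1`: `J_1(b'x) = y b' x + (ζ_1 b') x`;
`x ⧢ y b' x = 2 y b' x x + (levels (0,1), (1,1))`, `x ⧢ (ζ_1 b') x = 2 (ζ_1 b') x x + (level (0,1))`,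
`J_2(b'x)`: level `(0,1)`. -/
def SpecR4B : Prop :=
  ∀ (g : List Bool → ℚ), Z g 0 0 → Z g 0 1 → Z g 1 0 → Z g 1 1 → ∀ b,
    jj 0 (ins false g) (lw 0 1 b) + jj 1 g (lw 0 1 b) =
      2 * g (lw 1 2 b) + 2 * ze 0 (fun v => g (v ++ [false, false])) (false :: b ++ [true])

/-- R4C.  (R4) at `y b' x`, if also `Z g 1 1`, `Z g 1 2`, `Z g 2 1`:
`J_1(y b' x) = 2 y y b' x + x y b' x + y (ζ_1 b') x`; `x ⧢ y y b' x = 2 y y b' x x + (levels (0,1),
(1,1), (2,1))`, `x ⧢ x y b' x = 2 (x y b') x x + (level (0,1))`, `x ⧢ y (ζ_1 b') x`: levels (0,1),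
(1,1), (1,2); `J_2(y b' x) = x y y b' x + (x x y + y x y) b' x + y (ζ_2 b') x`: levels (0,1), (1,1). -/
def SpecR4C : Prop :=
  ∀ (g : List Bool → ℚ), Z g 0 0 → Z g 0 1 → Z g 1 0 → Z g 1 1 → Z g 1 2 → Z g 2 1 → ∀ b,
    jj 0 (ins false g) (lw 1 1 b) + jj 1 g (lw 1 1 b) =
      4 * g (lw 2 2 b) + 2 * g (lw 0 2 (true :: false :: b))

/-- MREV (from LVM).  `N ≥ 2`, levels `≤ N` vanish.  `b' = x y ..` or `b' = x y`, that is `b` does
not start with `x`.  `db g (b' x^N) = -g(b' x^{N+1})` (LVM at `(0, N)`, `Z g 1 N`).  The reversed word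
`x^N b'~ = x^N .. y x` is `lw 0 1 (x^{N-1} b~)` (`b = []`: `x^N y x = lw 0 1 (x^{N-1})`;
`b = y u`: `x^N y u~ y x = lw 0 1 (x^{N-1} y u~)`), and `db g` of it is `g(lw 1 1 _) - g(lw 0 2 _)`,
zero since `N ≥ 2`.  Use `rm`. -/
def SpecMrev : Prop :=
  ∀ (σ : ℚ) (g : List Bool → ℚ) (N : ℕ), σ * σ = 1 → RelL σ g → 2 ≤ N →
    (∀ i j, i + j ≤ N → Z g i j) → Z g 1 N →
    ∀ b, (∀ u, b ≠ false :: u) → g (lw 0 (N + 1) b) = 0

/-! ## Part C: functions on `A` -/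

/-- DX (Lemma 3).  `κ(x^p y u) = 0` for all `p ≥ 1` (`u = []` or ending with `y`), induction on `p`:
`0 = κ(∂(x^p y u)) = ∑_{q<p} κ(x^{q+1} y x^{p-1-q} y u) - κ(x^{p+1} y u) + κ(x^p y ∂u)`; all words
except `x^{p+1} y u` have at most `p` leading `x` (and lie in `A`). -/
def SpecDx : Prop :=
  ∀ κ : List Bool → ℚ, (∀ b, dd κ (false :: b ++ [true]) = 0) →
    (∀ b, (∀ u, b ≠ false :: u) → κ (false :: b ++ [true]) = 0) →
    ∀ b, κ (false :: b ++ [true]) = 0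

/-- PHI (Lemma 4).  First `κ(x y^k x u) = 0` for `x u` in `A`, induction on `k ≥ 1`: `k = 1` is the
hypothesis.  `S = ∑_{i<k} κ(x y^i x y^{k-i} x u)`.  `∂` at `x y^k x u`:
`κ(x y^{k+1} x u) - S + κ(x y^k ∂(x u)) = 0`, the last term vanishes (`∂(xu)` starts with `x`).
`ζ_1` at `x y^k x u`: `S + k κ(x y^{k+1} x u) + κ(x y^k ζ_1(x u)) = 0`, the last term vanishes.  Sum:
`(k+1) κ(x y^{k+1} x u) = 0`.  Without `x u`: `l κ(x y^l) = 0` for `l ≥ 2`, and `κ(x y) = 0`. -/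
def SpecPhi : Prop :=
  ∀ κ : List Bool → ℚ, (∀ b, dd κ (false :: b ++ [true]) = 0) →
    (∀ b, ze 0 κ (false :: b ++ [true]) = 0) →
    (∀ b, κ (false :: (true :: false :: b) ++ [true]) = 0) → κ [false, true] = 0 →
    ∀ b, (∀ u, b ≠ false :: u) → κ (false :: b ++ [true]) = 0

/-! ## Part D: the induction on the level -/

/-- ST1 (from KEY, R3K, R4A, R4B, R4C, DX, PHI).  `κ(v) = g(v x x)`.  R4A, `r4`: `Z g 1 1`.  R3K at
`j = 1`, `r3`: `2 κ(∂ b') = 0`.  KEY at `(1,1)`: `g(lw 2 1 b) = g(lw 1 2 b)` and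
`3 g(lw 2 1 b) + 3 g(lw 1 2 b) = 0` (the other terms have level 1): `Z g 2 1`, `Z g 1 2`.  R4B, `r4`:
`κ(ζ_1 b') = 0`.  R4C, `r4`: `4 g(lw 2 2 b) + 2 g(lw 0 2 (y x b)) = 0`.  KEY at `(1,2)`:
`g(lw 2 2 b) = g(lw 1 3 b)`, `3 g(lw 2 2 b) + 4 g(lw 1 3 b) + 2 g(lw 0 2 (y x b)) = 0` (the last term
is in level (1,0)).  So `3 g(lw 2 2 b) = 0` and `g(lw 0 2 (y x b)) = 0`.  `κ(x y) = 0`: `r3` at
`v = x x`: `2 g(xyxx) + g(yxyx) + (level ≤ 1)`, `g(yxyx) = g(lw 1 1 [])`.  PHI, DX: `Z g 0 2`. -/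
def SpecSt1 : Prop :=
  ∀ (σ : ℚ) (g : List Bool → ℚ), σ * σ = 1 → RelL σ g → Z g 0 0 → Z g 0 1 → Z g 1 0 →
    Z g 1 1 ∧ Z g 0 2

/-- STN (from KEY, R3K, MREV, DX).  `N ≥ 2`, levels `≤ N` vanish.  For `a, e ≥ 1`, `a + e = N + 1`:
one of them is `≥ 2`; KEY at `(i, j)`, `i, j ≥ 1`, `i + j = N`: both are `h` with
`(i + 2) h + (j + 2) h = 0` (other terms have levels `j, i ≤ N`), so `h = 0`.
`κ(v) = g(v x^{N+1})`: R3K at `j = N` and `r3`: `κ(∂b') = 0`; MREV and DX: `Z g 0 (N+1)`. -/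
def SpecStN : Prop :=
  ∀ (σ : ℚ) (g : List Bool → ℚ) (N : ℕ), σ * σ = 1 → RelL σ g → 2 ≤ N →
    (∀ i j, i + j ≤ N → Z g i j) → ∀ i j, i + j = N + 1 → 1 ≤ j → Z g i j

/-- ALL (from REL, SYM, ST1, STN): THEOREM L, induction on the level.  Apply ST1, STN to `c` and to
`c ∘ th` (SYM): the latter gives the levels `(N+1, 0)`: `Z (dd (c ∘ th)) 0 (N+1)` is
`Z (dd c) (N+1) 0`.  (The induction hypothesis holds for `c ∘ th` as well.) -/
def SpecAll : Prop :=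
  ∀ (n : ℕ) (σ : ℚ) (c : List Bool → ℚ), HypL n σ c → ∀ i j, Z (dd c) i j

/-- HYPOF (from ALL).  `x w` with `w` containing `y` is `lw 0 j b` (`Hof.XKaux.decomp`). -/
def SpecHypOf : Prop := ∀ (n : ℕ) (σ : ℚ) (c : List Bool → ℚ), HypL n σ c → Hyp n σ c

/-! ## Part E: from functionals on `ℌ⁰` to Theorem L -/

/-- CEX2: copy of `Hof/CEX.lean` with `KD2` instead of `KD` (only `prod` is used); `sh1` is
`Hof.CEXM.ext_sh`. -/
structure SpecCex2 : Prop where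
  sh1 : ∀ (n : ℕ) (φ : List Bool → ℤ), KD2 n φ → ∀ u v : List Bool, u ≠ [] → v ≠ [] →
    EndY u → EndY v → u.length + v.length = n → shs (ext φ) u v = 0
  sh : ∀ (n : ℕ) (φ : List Bool → ℤ), 2 ≤ n → KD2 n φ → ∀ u v : List Bool, u ≠ [] → v ≠ [] →
    u.length + v.length = n → shs (cex φ) u v = 0
  ex : ∀ (φ : List Bool → ℤ) (w : List Bool), EndY w → cex φ w = ext φ w

/-- FR (copy of `Top.Pass2.fin_rel` with `KD2` instead of `Kills`; `wt u ≤ 2`; use `Top.specAlg` and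
the theorem of `Top/Reg.lean` for `Pass2.SpecReg`). -/
def SpecFr : Prop :=
  ∀ (n : ℕ) (φ : List Bool → ℤ), KD2 n φ → ∀ (u : List ℕ) (a : ℕ) (b : List ℕ), wt u ≤ 2 →
    wt u + wt ((a + 1) :: b) = n →
    shs (ext φ) (bw u) (bw ((a + 1) :: b)) = stf (fun l => ext φ (bw l)) u ((a + 1) :: b)

/-- JJ2 (from CEX2, FR, JS; see `Hof/JJ.lean` for the style).  For `b'` in `A` and
`c = cn n φ`: `c(y * b') = 0`, `c(xy * b') = 0`, `c(yy * b') = 0` as `stf` with `[0]`, `[1]`,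
`[0,0]`; the first two are `jj 0 c b'`, `jj 1 c b'` (JS).  Third: `y * (y * b') = (2 yy + xy) * b'`
(`stf_assoc'`): `jj 0 (jj 0 c) b' = 2 stf c [0,0] b' + stf c [1] b' = 0`. -/
structure SpecJJ2 : Prop where
  j0 : ∀ (n : ℕ) (φ : List Bool → ℤ), 2 ≤ n → KD2 n φ → ∀ b : List Bool,
    jj 0 (cn n φ) (false :: b ++ [true]) = 0
  j1 : ∀ (n : ℕ) (φ : List Bool → ℤ), 2 ≤ n → KD2 n φ → ∀ b : List Bool,
    jj 1 (cn n φ) (false :: b ++ [true]) = 0
  j00 : ∀ (n : ℕ) (φ : List Bool → ℤ), 2 ≤ n → KD2 n φ → ∀ b : List Bool,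
    jj 0 (jj 0 (cn n φ)) (false :: b ++ [true]) = 0

/-- HYPL (from CEX2, ANT, JJ2, OPB; see `Hof/HYP.lean`).  `l00`: `oy`: `dd c b' = -jj 0 c b' = 0`.
`l01`: `ox`: `jj 1 c b' = dd c (x ⧢ b')`, and `x ⧢ b' = b' x + (words of A)`.  `l10`:
`0 = jj 0 (jj 0 c) b' = -jj 0 (dd c) b' = -dd c (y b') - ze 0 (dd c) b'`, and `ζ_1 b'` has only words
of `A`. -/
def SpecHypL : Prop :=
  ∀ (n : ℕ) (φ : List Bool → ℤ), 2 ≤ n → KD2 n φ → HypL n ((-1) ^ (n + 1)) (cn n φ)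

/-- KDD (from HYPL, HYPOF, OPB, CEX2, JS).  Let `c = cn n φ`; `Hyp n σ c` gives `dd c (x w) = 0` for
`w` containing `y`, that is `jj 0 c (x w) = 0` (`oy`); by `ok` and induction on `i`,
`jj i c (x w) = 0`: `(i+1) jj (i+1) c v = jj i (ins false c) v - ins false (jj i c) v`.  So
`stf (fun l => cn n φ (bw l)) [i] ((a+1) :: l) = 0` (JS).  Then `lin φ r = 0` for `r` in `DS1 n`: the
computation of `Hof.JJM.rel`, `Hof.JJM.key` read backwards (`w₀ = []`: `r = 0`). -/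
def SpecKdd : Prop := ∀ (n : ℕ) (φ : List Bool → ℤ), 2 ≤ n → KD2 n φ → KD n φ

/-! ## Part F: spanning and counting -/

/-- SPN2 (from KDD, `Hof` PP, TT; copy of `Hof/SPN.lean` with `RDS2` instead of `DS1`; an element of
`RDS2 n` lies in `H0 n` by definition). -/
def SpecSpn2 : Prop :=
  ∀ n, 1 ≤ n → H0 n ≤
    Submodule.span ℚ {z | ∃ i j a b, 1 ≤ i ∧ 1 ≤ j ∧ i + j = n ∧ a ∈ H0 i ∧ b ∈ H0 j ∧
      z = shuffle a b} ⊔ Submodule.span ℚ (RDS2 n) ⊔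
    Submodule.span ℚ {z | ∃ w, IsLyn w ∧ (expand w).length = n ∧ z = wd (expand w)}

/-- FNI2 (from SPN2; copy of `Hof/FNI.lean` with `I2`, `RDS2`). -/
def SpecFni2 : Prop := ∀ p, Module.finrank ℚ (H0 p ⧸ (I2 p).comap (H0 p).subtype) ≤ D p

/-- END2 (from FNI2; copy of `Hof/END.lean`; `RDS2 ⊆ RDS` is clear). -/
def SpecEnd2 : Prop := ∀ p, I2 p = Submodule.span ℚ (RDS p)

end MP154526.W2
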